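import Mathlib

/-!
# Treewidth, treedepth and the extremal function `h(k, t)`
-/

set_option autoImplicit false

namespace Pool.Agent.Helper49.TD

open SimpleGraph

/-- A tree decomposition of `G`: a finite tree `T` with a finite set of vertices of `G` (a bag) at
every node, such that every vertex and every edge of `G` is contained in some bag and, for every
vertex `v`, the nodes whose bags contain `v` induce a connected subgraph of the tree. -/
structure TreeDecomposition {V : Type} (G : SimpleGraph V) where
  /-- the nodes -/
  ι : Type
  finite : Finite ι
  /-- the tree -/
  T : SimpleGraph ι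
  isTree : T.IsTree
  /-- the bags -/
  bag : ι → Finset V
  cover : ∀ v, ∃ t, v ∈ bag t
  edge : ∀ u v, G.Adj u v → ∃ t, u ∈ bag t ∧ v ∈ bag t
  connected : ∀ v, (T.induce {t | v ∈ bag t}).Connected

/-- The treewidth: the minimum over all tree decompositions of the largest size of a bag minus
one. -/
noncomputable def treewidth {V : Type} (G : SimpleGraph V) : ℕ :=
  sInf {k | ∃ D : TreeDecomposition G, ∀ t, (D.bag t).card ≤ k + 1}

/-- A rooted forest on the vertex set `V`, given by its relation `a` is an ancestor of `v` or
`a = v`: a partial order in which the ancestors of every vertex form a chain. -/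
structure RootedForest (V : Type) where
  /-- `anc a v`: `a = v` or `a` is an ancestor of `v` -/
  anc : V → V → Prop
  refl : ∀ v, anc v v
  trans : ∀ a b c, anc a b → anc b c → anc a c
  antisymm : ∀ a b, anc a b → anc b a → a = b
  chain : ∀ a b v, anc a v → anc b v → anc a b ∨ anc b a

/-- The treedepth: the least `d` such that there is a rooted forest on the vertex set for which the
path from a root to any vertex has at most `d` vertices (the height is at most `d`) and every edge of
`G` joins a vertex to one of its ancestors. -/
noncomputable def treedepth {V : Type} (G : SimpleGraph V) : ℕ :=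
  sInf {d | ∃ F : RootedForest V, (∀ u v, G.Adj u v → F.anc u v ∨ F.anc v u) ∧
    ∀ v, {a | F.anc a v}.ncard ≤ d}

/-- The treedepths of the finite graphs `G` of treewidth at most `k` without an induced path on `t`
vertices. -/
def values (k t : ℕ) : Set ℕ :=
  {d | ∃ (V : Type) (_ : Finite V) (G : SimpleGraph V), treewidth G ≤ k ∧
    ¬ Nonempty (pathGraph t ↪g G) ∧ treedepth G = d}

/-- `h(k, t)`: the largest treedepth of a finite graph of treewidth at most `k` without an induced
path on `t` vertices. -/
noncomputable def h (k t : ℕ) : ℕ := sSup (values k t)

end Pool.Agent.Helper49.TD
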