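import Pool.Agent.Helper49.TD.Upper

/-!
# The upper bound for the cost of hitting a close family: the recursion
-/

set_option autoImplicit false
set_option linter.unusedSectionVars false
set_option linter.unusedVariables false

namespace Pool.Agent.Helper49.TD

open SimpleGraph

variable {V : Type} [DecidableEq V] {G : SimpleGraph V} {𝓑 : Finset V → Prop}

/-- Every family of pairwise touching connected sets has a hitting set with at most `K` elements. -/
def BrBound (G : SimpleGraph V) (K : ℕ) : Prop :=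
  ∀ 𝓡 : Finset V → Prop, (∀ R, 𝓡 R → Cn G R) → (∀ R R', 𝓡 R → 𝓡 R' → Touch G R R') →
    ∃ Z : Finset V, Z.card ≤ K ∧ ∀ R, 𝓡 R → ¬ Disjoint R Z

/-- The bound for the cost. -/
def Phi (K : ℕ) : ℕ → ℕ
  | 0 => K
  | 1 => 2 * K
  | s + 2 => K * (Phi K s + 1)

lemma el_zero_case (hconn : ∀ B, 𝓑 B → Cn G B) {K : ℕ} (hK : BrBound G K) {U : Finset V}
    (hs : Close G 𝓑 0 U) : El G 𝓑 K U := by
  refine El.of_comps hconn fun C hC => Hit.el ?_
  obtain ⟨Z, hZ, h⟩ := hK (fun B => 𝓑 B ∧ B ⊆ C) (fun B hB => hconn B hB.1) (by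
    rintro B B' ⟨hB, hBC⟩ ⟨hB', hBC'⟩
    obtain ⟨x, hx, y, hy, p, hp, hpl⟩ := hs C hC.2.1 hC.1 B B' hB hB' hBC hBC'
    refine ⟨x, hx, y, hy, ?_⟩
    cases p with
    | nil => exact Or.inl rfl
    | cons h p =>
      cases p with
      | nil => exact Or.inr h
      | cons h' p =>
        simp only [Walk.length_cons] at hpl
        omega)
  exact ⟨Z, hZ, fun B hB hBC => h B ⟨hB, hBC⟩⟩

/-- `U \ X` has two components with members of `𝓑`, and the members of `𝓑` in `U \ X` cannot be hit by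
`j` vertices. -/
def Sep (G : SimpleGraph V) (𝓑 : Finset V → Prop) (j : ℕ) (U X : Finset V) : Prop :=
  X ⊆ U ∧ (∃ C₁ C₂, C₁ ≠ C₂ ∧ IsComp G (U \ X) C₁ ∧ IsComp G (U \ X) C₂ ∧
    (∃ B, 𝓑 B ∧ B ⊆ C₁) ∧ (∃ B, 𝓑 B ∧ B ⊆ C₂)) ∧ ¬ Hit 𝓑 j (U \ X)

/-- Two walks of length at most two. -/
lemma walk_le_two {x y : V} (p : G.Walk x y) (h : p.length ≤ 2) :
    x = y ∨ G.Adj x y ∨ ∃ z ∈ p.support, G.Adj x z ∧ G.Adj z y := by
  cases p with
  | nil => exact Or.inl rfl
  | cons h1 p =>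
    cases p with
    | nil => exact Or.inr (Or.inl h1)
    | cons h2 p =>
      cases p with
      | nil => exact Or.inr (Or.inr ⟨_, by simp, h1, h2⟩)
      | cons h3 p =>
        simp only [Walk.length_cons] at h
        omega

open Classical in
lemma el_one_case (hconn : ∀ B, 𝓑 B → Cn G B) {K : ℕ} (hK : BrBound G K) :
    ∀ (j : ℕ) (U : Finset V), Close G 𝓑 1 U → Ord G 𝓑 j U → El G 𝓑 (K + j) U := by
  intro j
  induction j using Nat.strong_induction_on with
  | _ j ih =>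
  intro U₀ hs₀ hO₀
  refine El.of_comps hconn fun U hU₀ => ?_
  have hU : Cn G U := hU₀.1
  have hs : Close G 𝓑 1 U := hs₀.mono_set hU₀.2.1
  have hO : Ord G 𝓑 j U := hO₀.mono_set hU₀.2.1
  clear hs₀ hO₀ hU₀
  by_cases hA : ∃ X, Sep G 𝓑 j U X
  · -- a separator of minimal size
    obtain ⟨X, hX, hXmin⟩ : ∃ X, Sep G 𝓑 j U X ∧ ∀ Y, Sep G 𝓑 j U Y → X.card ≤ Y.card := by
      have h1 : ∃ n, ∃ X, Sep G 𝓑 j U X ∧ X.card = n := by
        obtain ⟨X, hX⟩ := hA
        exact ⟨_, X, hX, rfl⟩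
      obtain ⟨X, hX, hXn⟩ := Nat.find_spec h1
      exact ⟨X, hX, fun Y hY => by
        rw [hXn]
        exact Nat.find_min' h1 ⟨Y, hY, rfl⟩⟩
    obtain ⟨hXU, ⟨C₁, C₂, hC12, hC₁, hC₂, hB₁, hB₂⟩, hnh⟩ := hX
    -- for every component with a member of `𝓑` there is another one
    have hother : ∀ C, ∃ C', C' ≠ C ∧ IsComp G (U \ X) C' ∧ ∃ B, 𝓑 B ∧ B ⊆ C' := by
      intro C
      by_cases h : C = C₁
      · exact ⟨C₂, by rw [h]; exact hC12.symm, hC₂, hB₂⟩
      · exact ⟨C₁, fun h' => h h'.symm, hC₁, hB₁⟩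
    have hatt : ∀ C, IsComp G (U \ X) C → (∃ B, 𝓑 B ∧ B ⊆ C) → ∀ x ∈ X, ∃ c ∈ C, G.Adj x c := by
      intro C hC hCB x hx
      by_contra hcon
      push Not at hcon
      have hsub : U \ X ⊆ U \ X.erase x :=
        Finset.sdiff_subset_sdiff (Finset.Subset.refl _) (Finset.erase_subset _ _)
      have hsep : Sep G 𝓑 j U (X.erase x) := by
        refine ⟨(Finset.erase_subset _ _).trans hXU, ?_, fun h => hnh (h.mono_set hsub)⟩
        obtain ⟨C', hC'C, hC', B, hB, hBC'⟩ := hother C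
        obtain ⟨C'', hC'', hCC''⟩ := hC'.1.exists_comp (hC'.2.1.trans hsub)
        refine ⟨C, C'', ?_, ⟨hC.1, hC.2.1.trans hsub, ?_⟩, hC'', hCB, ⟨B, hB, hBC'.trans hCC''⟩⟩
        · rintro rfl
          obtain ⟨z, hz⟩ := hC'.1.1
          exact hC'C (hC'.eq_of_mem hC hz (hCC'' hz))
        · intro a ha b hb hab
          by_cases hbx : b = x
          · subst hbx
            exact absurd hab.symm (hcon a ha)
          · refine hC.2.2 a ha b ?_ hab
            simp only [Finset.mem_sdiff, Finset.mem_erase] at hb ⊢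
            tauto
      have := hXmin _ hsep
      rw [Finset.card_erase_of_mem hx] at this
      have := Finset.card_pos.2 ⟨x, hx⟩
      omega
    -- every vertex of `X` is adjacent to every member of `𝓑` in `U \ X`
    have hadj : ∀ B, 𝓑 B → B ⊆ U \ X → ∀ x ∈ X, ∃ b ∈ B, G.Adj x b := by
      intro B hB hBU x hx
      obtain ⟨C, hC, hBC⟩ := (hconn B hB).exists_comp hBU
      obtain ⟨C', hC'C, hC', B', hB', hBC'⟩ := hother C
      obtain ⟨c, hc, hxc⟩ := hatt C hC ⟨B, hB, hBC⟩ x hx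
      obtain ⟨c', hc', hxc'⟩ := hatt C' hC' ⟨B', hB', hBC'⟩ x hx
      have hW : Cn G (insert x C ∪ C') :=
        (hC.1.insert hc hxc).union hC'.1 ⟨x, by simp, c', hc', Or.inr hxc'⟩
      have hWU : insert x C ∪ C' ⊆ U := by
        intro z hz
        simp only [Finset.mem_union, Finset.mem_insert] at hz
        rcases hz with (rfl | hz) | hz
        · exact hXU hx
        · exact Finset.sdiff_subset (hC.2.1 hz)
        · exact Finset.sdiff_subset (hC'.2.1 hz)
      obtain ⟨b, hb, b', hb', q, hq, hql⟩ := hs _ hWU hW B B' hB hB'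
        (fun z hz => by simp [hBC hz]) (fun z hz => by simp [hBC' hz])
      have hbC := hBC hb
      have hb'C' := hBC' hb'
      have hne : ∀ z, z ∈ C → z ∉ C' := fun z hz hz' => hC'C (hC'.eq_of_mem hC hz' hz)
      rcases walk_le_two q hql with h | h | ⟨z, hz, h1, h2⟩
      · subst h
        exact absurd hb'C' (hne _ hbC)
      · exact absurd hb'C' (hne _ (hC.2.2 b hbC b' (hC'.2.1 hb'C') h))
      · have hzW := hq z hz
        simp only [Finset.mem_union, Finset.mem_insert] at hzW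
        rcases hzW with (rfl | hz') | hz'
        · exact ⟨b, hb, h1.symm⟩
        · exact absurd hb'C' (hne _ (hC.2.2 z hz' b' (hC'.2.1 hb'C') h2))
        · exact absurd hz' (hne _ (hC.2.2 b hbC z (hC'.2.1 hz') h1))
    -- the key estimate
    have hkey : ∀ C ⊆ U \ X, ∀ 𝓡, IsBr G 𝓑 C 𝓡 → ∃ Z : Finset V, Z.card + X.card ≤ j ∧
        ∀ R, 𝓡 R → ¬ Disjoint R Z := by
      intro C hCU 𝓡 h𝓡
      have hbr : IsBr G 𝓑 U
          (fun R => 𝓡 R ∨ ∃ x ∈ X, ∃ B, 𝓑 B ∧ B ⊆ U \ X ∧ R = insert x B) := by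
        refine ⟨?_, ?_, ?_, ?_⟩
        · rintro R (hR | ⟨x, hx, B, hB, hBA, rfl⟩)
          · exact h𝓡.cn R hR
          · obtain ⟨b, hb, hvb⟩ := hadj B hB hBA x hx
            exact (hconn B hB).insert hb hvb
        · rintro R (hR | ⟨x, hx, B, hB, hBA, rfl⟩)
          · exact (h𝓡.sub R hR).trans (hCU.trans Finset.sdiff_subset)
          · exact Finset.insert_subset (hXU hx) (hBA.trans Finset.sdiff_subset)
        · rintro R (hR | ⟨x, hx, B, hB, hBA, rfl⟩)
          · exact h𝓡.mem R hR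
          · exact ⟨B, hB, Finset.subset_insert _ _⟩
        · have key : ∀ R x B, x ∈ X → 𝓡 R → Touch G R (insert x B) := by
            intro R x B hx hR
            obtain ⟨B', hB', hBR⟩ := h𝓡.mem R hR
            obtain ⟨b, hb, hvb⟩ := hadj B' hB' ((hBR.trans (h𝓡.sub R hR)).trans hCU) x hx
            exact ⟨b, hBR hb, x, by simp, Or.inr hvb.symm⟩
          rintro R R' (hR | ⟨x, hx, B, hB, hBA, rfl⟩) (hR' | ⟨x', hx', B', hB', hBA', rfl⟩)
          · exact h𝓡.touch R R' hR hR'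
          · exact key R x' B' hx' hR
          · exact (key R' x B hx hR').symm
          · obtain ⟨b, hb, hvb⟩ := hadj B' hB' hBA' x hx
            exact ⟨x, by simp, b, by simp [hb], Or.inr hvb⟩
      obtain ⟨Z, hZ, hZh⟩ := hO _ hbr
      have hXZ : X ⊆ Z := by
        intro x hx
        by_contra hxZ
        refine hnh ⟨Z, hZ, fun B hB hBU hd => ?_⟩
        apply hZh (insert x B) (Or.inr ⟨x, hx, B, hB, hBU, rfl⟩)
        rw [Finset.disjoint_insert_left]
        exact ⟨hxZ, hd⟩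
      refine ⟨Z \ X, ?_, ?_⟩
      · rw [Finset.card_sdiff_of_subset hXZ]
        have := Finset.card_le_card hXZ
        omega
      · intro R hR hd
        apply hZh R (Or.inl hR)
        rw [Finset.disjoint_left] at hd ⊢
        intro z hz hzZ
        have hzX : z ∉ X := (Finset.mem_sdiff.1 (hCU (h𝓡.sub R hR hz))).2
        exact hd hz (Finset.mem_sdiff.2 ⟨hzZ, hzX⟩)
    have hXj : X.card ≤ j := by
      obtain ⟨Z, hZ, -⟩ := hkey ∅ (Finset.empty_subset _) (fun _ => False)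
        ⟨fun _ h => h.elim, fun _ h => h.elim, fun _ h => h.elim, fun _ _ h => h.elim⟩
      omega
    have hXpos : 0 < X.card := by
      rw [Finset.card_pos, Finset.nonempty_iff_ne_empty]
      rintro rfl
      rw [Finset.sdiff_empty] at hC₁ hC₂
      exact hC12 ((hC₁.eq_of_cn hU).trans (hC₂.eq_of_cn hU).symm)
    have hrest : El G 𝓑 (K + (j - X.card)) (U \ X) := by
      refine ih (j - X.card) (by omega) (U \ X) (hs.mono_set Finset.sdiff_subset) ?_
      intro 𝓡 h𝓡
      obtain ⟨Z, hZ, h⟩ := hkey (U \ X) (Finset.Subset.refl _) 𝓡 h𝓡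
      exact ⟨Z, by omega, h⟩
    exact (El.sdiff X hrest).mono (by omega)
  · -- no separator
    obtain ⟨Z, hZ, h⟩ := hK (fun A => Cn G A ∧ A ⊆ U ∧ ¬ Hit 𝓑 j A) (fun A hA => hA.1) (by
      rintro A₁ A₂ ⟨hA₁, hA₁U, hA₁h⟩ ⟨hA₂, hA₂U, hA₂h⟩
      by_contra hnt
      refine hA ⟨U.filter (fun x => x ∉ A₁ ∧ ∃ a ∈ A₁, G.Adj a x), Finset.filter_subset _ _, ?_, ?_⟩
      · have hex : ∀ A, ¬ Hit 𝓑 j A → ∃ B, 𝓑 B ∧ B ⊆ A := by
          intro A hA
          by_contra hcon
          exact hA ⟨∅, by simp, fun B hB hBA => absurd ⟨B, hB, hBA⟩ hcon⟩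
        have hA₂s : A₂ ⊆ U \ U.filter (fun x => x ∉ A₁ ∧ ∃ a ∈ A₁, G.Adj a x) := by
          intro x hx
          rw [Finset.mem_sdiff, Finset.mem_filter]
          refine ⟨hA₂U hx, ?_⟩
          rintro ⟨-, -, a, ha, hax⟩
          exact hnt ⟨a, ha, x, hx, Or.inr hax⟩
        obtain ⟨C, hC, hAC⟩ := hA₂.exists_comp hA₂s
        refine ⟨A₁, C, ?_, ⟨hA₁, ?_, ?_⟩, hC, hex A₁ hA₁h, ?_⟩
        · rintro rfl
          obtain ⟨x, hx⟩ := hA₂.1
          exact hnt ⟨x, hAC hx, x, hx, Or.inl rfl⟩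
        · intro x hx
          rw [Finset.mem_sdiff, Finset.mem_filter]
          exact ⟨hA₁U hx, fun h => h.2.1 hx⟩
        · intro x hx y hy hxy
          rw [Finset.mem_sdiff, Finset.mem_filter] at hy
          by_contra hyA
          exact hy.2 ⟨hy.1, hyA, x, hx, hxy⟩
        · obtain ⟨B, hB, hBA⟩ := hex A₂ hA₂h
          exact ⟨B, hB, hBA.trans hAC⟩
      · intro hh
        refine hA₁h (hh.mono_set ?_)
        intro x hx
        rw [Finset.mem_sdiff, Finset.mem_filter]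
        exact ⟨hA₁U hx, fun h => h.2.1 hx⟩)
    have hrest : El G 𝓑 j (U \ Z) := by
      refine El.of_comps hconn fun C hC => Hit.el ?_
      by_contra hCh
      refine h C ⟨hC.1, hC.2.1.trans Finset.sdiff_subset, hCh⟩ ?_
      exact Finset.disjoint_of_subset_left hC.2.1 Finset.sdiff_disjoint
    exact (El.sdiff Z hrest).mono (by omega)

theorem el_of_close {K : ℕ} (hK : BrBound G K) : ∀ (s : ℕ) (𝓑 : Finset V → Prop),
    (∀ B, 𝓑 B → Cn G B) → ∀ U, Close G 𝓑 s U → El G 𝓑 (Phi K s) U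
  | 0, 𝓑, hconn, U, hs => el_zero_case hconn hK hs
  | 1, 𝓑, hconn, U, hs => by
    have h : Ord G 𝓑 K U := fun 𝓡 h𝓡 => hK 𝓡 h𝓡.cn h𝓡.touch
    exact (el_one_case hconn hK K U hs h).mono (by simp only [Phi]; omega)
  | s + 2, 𝓑, hconn, U, hs => by
    have key : ∀ j (U : Finset V), Close G 𝓑 (s + 2) U → Ord G 𝓑 j U →
        El G 𝓑 (j * (Phi K s + 1)) U := by
      intro j
      induction j with
      | zero =>
        intro U _ hO
        refine El.of_none fun B hB hBU => ?_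
        obtain ⟨Z, hZ, h⟩ := hO (fun R => R = B) ⟨fun R hR => hR ▸ hconn B hB,
          fun R hR => hR ▸ hBU, fun R hR => ⟨B, hB, hR ▸ Finset.Subset.refl _⟩,
          fun R R' hR hR' => by subst hR; subst hR'; exact (hconn _ hB).touch_self⟩
        rw [Nat.le_zero, Finset.card_eq_zero] at hZ
        subst hZ
        exact h B rfl (Finset.disjoint_empty_right _)
      | succ j ih =>
        intro U hs hO
        have h1 : El G (Heavy G 𝓑 j U) (Phi K s) U :=
          el_of_close hK s _ (fun A hA => hA.1) U (close_heavy hconn hs hO)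
        have h2 := El.comp (d := j * (Phi K s + 1) + 1) h1 (fun A hAU hA => by
          refine El.of_comps hconn fun C hC => ?_
          by_cases h3 : Ord G 𝓑 j C
          · exact (ih C (hs.mono_set (hC.2.1.trans hAU)) h3).mono (by omega)
          · have h4 : Hit 𝓑 (j + 1) C := by
              by_contra h4
              exact hA C ⟨hC.1, hC.2.1.trans hAU, h3, h4⟩ hC.2.1
            refine h4.el.mono ?_
            nlinarith [Nat.zero_le (Phi K s * j)])
        refine h2.mono ?_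
        ring_nf
        omega
    have h : Ord G 𝓑 K U := fun 𝓡 h𝓡 => hK 𝓡 h𝓡.cn h𝓡.touch
    exact key K U hs h

/-- An explicit bound. -/
lemma Phi_le (K : ℕ) : ∀ s, Phi K s + 1 ≤ 2 * (K + 1) ^ (s / 2 + 1)
  | 0 => by simp [Phi]
  | 1 => by simp [Phi]
  | s + 2 => by
    have ih := Phi_le K s
    have h1 : (s + 2) / 2 + 1 = (s / 2 + 1) + 1 := by omega
    rw [h1, pow_succ]
    have h2 : 1 ≤ (K + 1) ^ (s / 2 + 1) := Nat.one_le_pow _ _ (by omega)
    simp only [Phi]
    nlinarith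

end Pool.Agent.Helper49.TD
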