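import Pool.Agent.K3h7.HUD.Bramble
import Pool.Agent.Helper49.TD.Defs
import Pool.Agent.Helper49.TD.Main

/-!
# Pairwise touching connected sets are hit by a bag
-/

set_option autoImplicit false

namespace Pool.Agent.Helper49.TD

open SimpleGraph

variable {V : Type} {G : SimpleGraph V}

lemma walk_in_subtree (D : TreeDecomposition G) (u : V) {t t' : D.ι}
    (ht : u ∈ D.bag t) (ht' : u ∈ D.bag t') :
    ∃ Q : D.T.Walk t t', ∀ s ∈ Q.support, u ∈ D.bag s := by
  obtain ⟨Q⟩ := (D.connected u).preconnected ⟨t, ht⟩ ⟨t', ht'⟩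
  exact K3h7.HUD.walk_of_induce Q

lemma walk_in_union (D : TreeDecomposition G) (U : Set V) :
    ∀ {u u' : V} (w : G.Walk u u'), (∀ z ∈ w.support, z ∈ U) → ∀ {t t' : D.ι},
      u ∈ D.bag t → u' ∈ D.bag t' →
      ∃ Q : D.T.Walk t t', ∀ s ∈ Q.support, ∃ z ∈ U, z ∈ D.bag s
  | u, _, Walk.nil, hw, t, t', ht, ht' => by
    obtain ⟨Q, hQ⟩ := walk_in_subtree D u ht ht'
    exact ⟨Q, fun s hs => ⟨u, hw u (by simp), hQ s hs⟩⟩
  | u, u', Walk.cons (v := v) h w, hw, t, t', ht, ht' => by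
    obtain ⟨i, hi1, hi2⟩ := D.edge u v h
    obtain ⟨Q, hQ⟩ := walk_in_subtree D u ht hi1
    obtain ⟨Q', hQ'⟩ := walk_in_union D U w (fun z hz => hw z (by simp [hz])) hi2 ht'
    refine ⟨Q.append Q', ?_⟩
    intro s hs
    rw [Walk.mem_support_append_iff] at hs
    rcases hs with hs | hs
    · exact ⟨u, hw u (by simp), hQ s hs⟩
    · exact hQ' s hs

theorem brBound_of_decomposition [Finite V] [DecidableEq V] (D : TreeDecomposition G) (k : ℕ)
    (hk : ∀ t, (D.bag t).card ≤ k + 1) : BrBound G (k + 1) := by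
  classical
  have := Fintype.ofFinite V
  intro 𝓡 hcn htouch
  by_cases hne : ∃ R, 𝓡 R
  · obtain ⟨t, ht⟩ := K3h7.HUD.helly D.isTree (Finset.univ.filter 𝓡)
      (by obtain ⟨R, hR⟩ := hne; exact ⟨R, by simp [hR]⟩)
      (fun R : Finset V => {t | ∃ u ∈ R, u ∈ D.bag t}) (by
        intro R hR
        rw [Finset.mem_filter] at hR
        apply K3h7.HUD.pathConvex_of_walks D.isTree
        rintro t t' ⟨u, hu, hut⟩ ⟨u', hu', hut'⟩
        obtain ⟨w, hw⟩ := (hcn R hR.2).2 u hu u' hu'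
        exact walk_in_union D (↑R : Set V) w hw hut hut') (by
        intro R hR R' hR'
        rw [Finset.mem_filter] at hR hR'
        obtain ⟨a, ha, b, hb, hab⟩ := htouch R R' hR.2 hR'.2
        rcases hab with rfl | hab
        · obtain ⟨t, ht⟩ := D.cover a
          exact ⟨t, ⟨a, ha, ht⟩, ⟨a, hb, ht⟩⟩
        · obtain ⟨t, ht1, ht2⟩ := D.edge a b hab
          exact ⟨t, ⟨a, ha, ht1⟩, ⟨b, hb, ht2⟩⟩)
    refine ⟨D.bag t, hk t, fun R hR hd => ?_⟩
    obtain ⟨u, hu, hut⟩ := ht R (by simp [hR])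
    exact Finset.disjoint_left.1 hd hu hut
  · exact ⟨∅, by simp, fun R hR => absurd ⟨R, hR⟩ hne⟩

/-- The trivial tree decomposition with one bag. -/
def trivialTD [Fintype V] (G : SimpleGraph V) : TreeDecomposition G where
  ι := Unit
  finite := inferInstance
  T := ⊥
  isTree := by
    refine ⟨⟨fun a b => by cases a; cases b; exact Reachable.refl _⟩, ?_⟩
    exact isAcyclic_bot
  bag := fun _ => Finset.univ
  cover := fun v => ⟨(), by simp⟩
  edge := fun u v _ => ⟨(), by simp, by simp⟩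
  connected := fun v => by
    have : Nonempty ({t : Unit | v ∈ (Finset.univ : Finset V)} : Set Unit) := ⟨⟨(), by simp⟩⟩
    refine ⟨fun a b => ?_⟩
    have hab : a = b := Subsingleton.elim _ _
    rw [hab]

theorem brBound_of_treewidth [Finite V] [DecidableEq V] {k : ℕ} (h : treewidth G ≤ k) :
    BrBound G (k + 1) := by
  have := Fintype.ofFinite V
  have hne : {k | ∃ D : TreeDecomposition G, ∀ t, (D.bag t).card ≤ k + 1}.Nonempty := by
    refine ⟨Fintype.card V, trivialTD G, fun t => ?_⟩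
    have := Finset.card_le_univ ((trivialTD G).bag t)
    omega
  obtain ⟨D, hD⟩ := Nat.sInf_mem hne
  exact brBound_of_decomposition D k fun t => (hD t).trans (by unfold treewidth at h; omega)

end Pool.Agent.Helper49.TD
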