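import Mathlib

/-!
# Connected sets of vertices and components
-/

set_option autoImplicit false
set_option linter.unusedSectionVars false
set_option linter.unusedVariables false

namespace Pool.Agent.Helper49.TD

open SimpleGraph

variable {V : Type} [DecidableEq V] {G : SimpleGraph V}

/-- `x` and `y` are joined by a walk inside `S`. -/
def Reach (G : SimpleGraph V) (S : Finset V) (x y : V) : Prop :=
  ∃ p : G.Walk x y, ∀ z ∈ p.support, z ∈ S

/-- `S` is a nonempty set of vertices which induces a connected subgraph. -/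
def Cn (G : SimpleGraph V) (S : Finset V) : Prop :=
  S.Nonempty ∧ ∀ x ∈ S, ∀ y ∈ S, Reach G S x y

/-- `A` and `B` intersect or are joined by an edge. -/
def Touch (G : SimpleGraph V) (A B : Finset V) : Prop :=
  ∃ a ∈ A, ∃ b ∈ B, a = b ∨ G.Adj a b

/-- `C` is (the vertex set of) a component of the subgraph induced by `S`. -/
def IsComp (G : SimpleGraph V) (S C : Finset V) : Prop :=
  Cn G C ∧ C ⊆ S ∧ ∀ x ∈ C, ∀ y ∈ S, G.Adj x y → y ∈ C

lemma Reach.refl {S : Finset V} {x : V} (hx : x ∈ S) : Reach G S x x :=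
  ⟨Walk.nil, by simpa using hx⟩

lemma Reach.symm {S : Finset V} {x y : V} (h : Reach G S x y) : Reach G S y x := by
  obtain ⟨p, hp⟩ := h
  exact ⟨p.reverse, by simpa using hp⟩

lemma Reach.trans {S : Finset V} {x y z : V} (h : Reach G S x y) (h' : Reach G S y z) :
    Reach G S x z := by
  obtain ⟨p, hp⟩ := h
  obtain ⟨q, hq⟩ := h'
  refine ⟨p.append q, fun w hw => ?_⟩
  rw [Walk.mem_support_append_iff] at hw
  exact hw.elim (hp w) (hq w)

lemma Reach.mono {S S' : Finset V} (hS : S ⊆ S') {x y : V} (h : Reach G S x y) :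
    Reach G S' x y := by
  obtain ⟨p, hp⟩ := h
  exact ⟨p, fun z hz => hS (hp z hz)⟩

lemma Reach.adj {S : Finset V} {x y : V} (hx : x ∈ S) (hy : y ∈ S) (h : G.Adj x y) :
    Reach G S x y :=
  ⟨Walk.cons h Walk.nil, by simp [hx, hy]⟩

lemma Reach.mem_right {S : Finset V} {x y : V} (h : Reach G S x y) : y ∈ S := by
  obtain ⟨p, hp⟩ := h
  exact hp y p.end_mem_support

lemma Reach.mem_left {S : Finset V} {x y : V} (h : Reach G S x y) : x ∈ S := by
  obtain ⟨p, hp⟩ := h
  exact hp x p.start_mem_support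

lemma Cn.singleton (x : V) : Cn G {x} :=
  ⟨⟨x, by simp⟩, fun a ha b hb => by
    rw [Finset.mem_singleton] at ha hb
    subst ha; subst hb
    exact Reach.refl (by simp)⟩

lemma Touch.symm {A B : Finset V} (h : Touch G A B) : Touch G B A := by
  obtain ⟨a, ha, b, hb, h⟩ := h
  exact ⟨b, hb, a, ha, h.imp Eq.symm fun h => h.symm⟩

lemma Touch.mono {A A' B B' : Finset V} (hA : A ⊆ A') (hB : B ⊆ B') (h : Touch G A B) :
    Touch G A' B' := by
  obtain ⟨a, ha, b, hb, h⟩ := h
  exact ⟨a, hA ha, b, hB hb, h⟩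

lemma Cn.touch_self {A : Finset V} (h : Cn G A) : Touch G A A := by
  obtain ⟨a, ha⟩ := h.1
  exact ⟨a, ha, a, ha, Or.inl rfl⟩

lemma Cn.union {A B : Finset V} (hA : Cn G A) (hB : Cn G B) (h : Touch G A B) :
    Cn G (A ∪ B) := by
  obtain ⟨a, ha, b, hb, hab⟩ := h
  have key : Reach G (A ∪ B) a b := by
    rcases hab with rfl | hab
    · exact Reach.refl (Finset.mem_union_left _ ha)
    · exact Reach.adj (Finset.mem_union_left _ ha) (Finset.mem_union_right _ hb) hab
  have h1 : ∀ x ∈ A ∪ B, Reach G (A ∪ B) x a := by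
    intro x hx
    rw [Finset.mem_union] at hx
    rcases hx with hx | hx
    · exact (hA.2 x hx a ha).mono Finset.subset_union_left
    · exact ((hB.2 x hx b hb).mono Finset.subset_union_right).trans key.symm
  exact ⟨⟨a, Finset.mem_union_left _ ha⟩, fun x hx y hy => (h1 x hx).trans (h1 y hy).symm⟩

lemma Cn.insert {A : Finset V} (hA : Cn G A) {v a : V} (ha : a ∈ A) (h : G.Adj v a) :
    Cn G (insert v A) := by
  have := (Cn.singleton (G := G) v).union hA ⟨v, by simp, a, ha, Or.inr h⟩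
  rwa [← Finset.insert_eq] at this

lemma IsComp.of_reach {S C : Finset V} (h : IsComp G S C) :
    ∀ {x y : V} (p : G.Walk x y), (∀ z ∈ p.support, z ∈ S) → x ∈ C → y ∈ C
  | _, _, Walk.nil, _, hx => hx
  | x, y, Walk.cons (v := v) hxv p, hp, hx => by
    have hv : v ∈ C := h.2.2 x hx v (hp v (by simp)) hxv
    exact IsComp.of_reach h p (fun z hz => hp z (by simp [hz])) hv

lemma IsComp.mem_of_reach {S C : Finset V} (h : IsComp G S C) {x y : V} (hr : Reach G S x y)
    (hx : x ∈ C) : y ∈ C := by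
  obtain ⟨p, hp⟩ := hr
  exact h.of_reach p hp hx

lemma support_reach {S : Finset V} :
    ∀ {x y : V} (p : G.Walk x y), (∀ z ∈ p.support, z ∈ S) → ∀ z ∈ p.support, Reach G S x z
  | x, _, Walk.nil, hp, z, hz => by
    rw [Walk.support_nil, List.mem_singleton] at hz
    subst hz
    exact Reach.refl (hp _ (by simp))
  | x, y, Walk.cons (v := v) hxv p, hp, z, hz => by
    rw [Walk.support_cons, List.mem_cons] at hz
    rcases hz with rfl | hz
    · exact Reach.refl (hp _ (by simp))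
    · exact (Reach.adj (hp x (by simp)) (hp v (by simp)) hxv).trans
        (support_reach p (fun w hw => hp w (by simp [hw])) z hz)

lemma exists_comp {S : Finset V} {x : V} (hx : x ∈ S) : ∃ C, IsComp G S C ∧ x ∈ C := by
  classical
  refine ⟨S.filter (fun y => Reach G S x y), ⟨⟨⟨x, ?_⟩, ?_⟩, Finset.filter_subset _ _, ?_⟩, ?_⟩
  · simp [hx, Reach.refl hx]
  · intro a ha b hb
    rw [Finset.mem_filter] at ha hb
    have h1 : ∀ c ∈ S, Reach G S x c → Reach G (S.filter (fun y => Reach G S x y)) x c := by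
      rintro c _ ⟨p, hp⟩
      refine ⟨p, fun z hz => ?_⟩
      rw [Finset.mem_filter]
      exact ⟨hp z hz, support_reach p hp z hz⟩
    exact (h1 a ha.1 ha.2).symm.trans (h1 b hb.1 hb.2)
  · intro a ha b hb hab
    rw [Finset.mem_filter] at ha ⊢
    exact ⟨hb, ha.2.trans (Reach.adj ha.1 hb hab)⟩
  · simp [hx, Reach.refl hx]

lemma Cn.subset_comp {A S C : Finset V} (hA : Cn G A) (hAS : A ⊆ S) (hC : IsComp G S C)
    {x : V} (hx : x ∈ A) (hxC : x ∈ C) : A ⊆ C := fun y hy =>
  hC.mem_of_reach ((hA.2 x hx y hy).mono hAS) hxC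

lemma Cn.exists_comp {A S : Finset V} (hA : Cn G A) (hAS : A ⊆ S) :
    ∃ C, IsComp G S C ∧ A ⊆ C := by
  obtain ⟨x, hx⟩ := hA.1
  obtain ⟨C, hC, hxC⟩ := TD.exists_comp (G := G) (hAS hx)
  exact ⟨C, hC, hA.subset_comp hAS hC hx hxC⟩

lemma Cn.isComp {C : Finset V} (h : Cn G C) : IsComp G C C :=
  ⟨h, Finset.Subset.refl _, fun _ _ y hy _ => hy⟩

lemma IsComp.eq_of_cn {U C : Finset V} (hU : Cn G U) (h : IsComp G U C) : C = U := by
  obtain ⟨x, hx⟩ := h.1.1
  exact Finset.Subset.antisymm h.2.1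
    (hU.subset_comp (Finset.Subset.refl _) h (h.2.1 hx) hx)

lemma IsComp.eq_of_mem {U C C' : Finset V} (h : IsComp G U C) (h' : IsComp G U C') {x : V}
    (hx : x ∈ C) (hx' : x ∈ C') : C = C' :=
  Finset.Subset.antisymm (h.1.subset_comp h.2.1 h' hx hx') (h'.1.subset_comp h'.2.1 h hx' hx)

end Pool.Agent.Helper49.TD
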