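import Pool.Agent.Helper49.TD.Conn

/-!
# The cost of hitting a family of connected sets
-/

set_option autoImplicit false
set_option linter.unusedSectionVars false
set_option linter.unusedVariables false

namespace Pool.Agent.Helper49.TD

open SimpleGraph

variable {V : Type} [DecidableEq V] (G : SimpleGraph V)

/-- `El G 𝓑 d U`: the vertices of `U` can be eliminated in `d` rounds (in every round one vertex from
every component) so that no member of `𝓑` is left. -/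
def El (𝓑 : Finset V → Prop) : ℕ → Finset V → Prop
  | 0, U => ∀ B, 𝓑 B → ¬ B ⊆ U
  | d + 1, U => ∀ C, IsComp G U C → ∃ v ∈ C, El 𝓑 d (C.erase v)

variable {G} {𝓑 : Finset V → Prop}

lemma El.of_none : ∀ {d : ℕ} {U : Finset V}, (∀ B, 𝓑 B → ¬ B ⊆ U) → El G 𝓑 d U
  | 0, U, h => h
  | d + 1, U, h => by
    intro C hC
    obtain ⟨v, hv⟩ := hC.1.1
    refine ⟨v, hv, El.of_none fun B hB hBC => h B hB ?_⟩
    exact hBC.trans ((Finset.erase_subset _ _).trans hC.2.1)

lemma El.mono_set : ∀ {d : ℕ} {U U' : Finset V}, U' ⊆ U → El G 𝓑 d U → El G 𝓑 d U'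
  | 0, U, U', hU, h => fun B hB hBU => h B hB (hBU.trans hU)
  | d + 1, U, U', hU, h => by
    intro C' hC'
    obtain ⟨C, hC, hCC⟩ := hC'.1.exists_comp (hC'.2.1.trans hU)
    obtain ⟨v, hv, hE⟩ := h C hC
    by_cases hvC : v ∈ C'
    · exact ⟨v, hvC, El.mono_set (Finset.erase_subset_erase _ hCC) hE⟩
    · obtain ⟨w, hw⟩ := hC'.1.1
      refine ⟨w, hw, El.mono_set ?_ hE⟩
      intro x hx
      rw [Finset.mem_erase] at hx ⊢
      refine ⟨?_, hCC hx.2⟩
      rintro rfl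
      exact hvC hx.2

lemma El.succ {d : ℕ} {U : Finset V} (h : El G 𝓑 d U) : El G 𝓑 (d + 1) U := by
  intro C hC
  obtain ⟨v, hv⟩ := hC.1.1
  exact ⟨v, hv, El.mono_set ((Finset.erase_subset _ _).trans hC.2.1) h⟩

lemma El.mono {d d' : ℕ} (hd : d ≤ d') {U : Finset V} (h : El G 𝓑 d U) : El G 𝓑 d' U := by
  induction hd with
  | refl => exact h
  | step _ ih => exact ih.succ

lemma El.of_comps (hconn : ∀ B, 𝓑 B → Cn G B) : ∀ {d : ℕ} {U : Finset V},
    (∀ C, IsComp G U C → El G 𝓑 d C) → El G 𝓑 d U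
  | 0, U, h => by
    intro B hB hBU
    obtain ⟨C, hC, hBC⟩ := (hconn B hB).exists_comp hBU
    exact h C hC B hB hBC
  | d + 1, U, h => fun C hC => h C hC C hC.1.isComp

lemma El.erase {d : ℕ} {U : Finset V} {v : V} (h : El G 𝓑 d (U.erase v)) :
    El G 𝓑 (d + 1) U := by
  intro C hC
  by_cases hv : v ∈ C
  · exact ⟨v, hv, El.mono_set (Finset.erase_subset_erase _ hC.2.1) h⟩
  · obtain ⟨w, hw⟩ := hC.1.1
    refine ⟨w, hw, El.mono_set ?_ h⟩
    intro x hx
    rw [Finset.mem_erase] at hx ⊢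
    refine ⟨?_, hC.2.1 hx.2⟩
    rintro rfl
    exact hv hx.2

lemma El.sdiff {d : ℕ} {U : Finset V} (X : Finset V) (h : El G 𝓑 d (U \ X)) :
    El G 𝓑 (d + X.card) U := by
  induction X using Finset.induction_on generalizing U with
  | empty => simpa using h
  | insert x X hx ih =>
    rw [Finset.card_insert_of_notMem hx, ← add_assoc]
    refine El.erase (v := x) (ih ?_)
    refine El.mono_set ?_ h
    intro y hy
    simp only [Finset.mem_sdiff, Finset.mem_erase, Finset.mem_insert] at hy ⊢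
    tauto

/-- First eliminate the members of `𝓑'`, then those of `𝓑`. -/
lemma El.comp {𝓑' : Finset V → Prop} {d : ℕ} : ∀ {d' : ℕ} {U : Finset V}, El G 𝓑' d' U →
    (∀ A ⊆ U, (∀ B, 𝓑' B → ¬ B ⊆ A) → El G 𝓑 d A) → El G 𝓑 (d + d') U
  | 0, U, h, h2 => h2 U (Finset.Subset.refl _) h
  | d' + 1, U, h, h2 => by
    intro C hC
    obtain ⟨v, hv, hE⟩ := h C hC
    refine ⟨v, hv, El.comp hE fun A hA hn => h2 A ?_ hn⟩
    exact hA.trans ((Finset.erase_subset _ _).trans hC.2.1)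

/-- All members of `𝓑` inside `U` can be hit by at most `j` vertices. -/
def Hit (𝓑 : Finset V → Prop) (j : ℕ) (U : Finset V) : Prop :=
  ∃ Z : Finset V, Z.card ≤ j ∧ ∀ B, 𝓑 B → B ⊆ U → ¬ Disjoint B Z

lemma Hit.mono_set {j : ℕ} {U U' : Finset V} (hU : U' ⊆ U) (h : Hit 𝓑 j U) : Hit 𝓑 j U' := by
  obtain ⟨Z, hZ, h⟩ := h
  exact ⟨Z, hZ, fun B hB hBU => h B hB (hBU.trans hU)⟩

lemma Hit.mono {j j' : ℕ} (hj : j ≤ j') {U : Finset V} (h : Hit 𝓑 j U) : Hit 𝓑 j' U := by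
  obtain ⟨Z, hZ, h⟩ := h
  exact ⟨Z, hZ.trans hj, h⟩

lemma Hit.el {j : ℕ} {U : Finset V} (h : Hit 𝓑 j U) : El G 𝓑 j U := by
  obtain ⟨Z, hZ, h⟩ := h
  have h1 : El G 𝓑 0 (U \ Z) := by
    intro B hB hBU
    refine h B hB (hBU.trans Finset.sdiff_subset) ?_
    exact Finset.disjoint_of_subset_left hBU Finset.sdiff_disjoint
  have h2 := El.sdiff Z h1
  exact h2.mono (by omega)

end Pool.Agent.Helper49.TD
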