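import Pool.Agent.Helper49.TD.Defs
import Pool.Agent.Helper49.TD.Main

/-!
# Elimination of all vertices gives a rooted forest; shortest walks are induced paths
-/

set_option autoImplicit false
set_option linter.unusedSectionVars false
set_option linter.unusedVariables false

namespace Pool.Agent.Helper49.TD

open SimpleGraph

variable {V : Type} [DecidableEq V] {G : SimpleGraph V}

/-- A rooted forest on the set `U`, of height at most `d`, such that every edge in `U` joins a vertex
to one of its ancestors. -/
structure IsElim (G : SimpleGraph V) (d : ℕ) (U : Finset V) (anc : V → V → Prop) : Prop where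
  supp : ∀ a b, anc a b → a ∈ U ∧ b ∈ U
  refl : ∀ b ∈ U, anc b b
  trans : ∀ a b c, anc a b → anc b c → anc a c
  antisymm : ∀ a b, anc a b → anc b a → a = b
  chain : ∀ a b v, anc a v → anc b v → anc a b ∨ anc b a
  adj : ∀ a ∈ U, ∀ b ∈ U, G.Adj a b → anc a b ∨ anc b a
  height : ∀ b, ∃ S : Finset V, S.card ≤ d ∧ ∀ a, anc a b → a ∈ S

lemma exists_elim : ∀ (d : ℕ) (U : Finset V), El G (fun B => ∃ x, B = {x}) d U →
    ∃ anc, IsElim G d U anc
  | 0, U, h => by
    have hU : U = ∅ := by
      rw [Finset.eq_empty_iff_forall_notMem]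
      intro x hx
      exact h {x} ⟨x, rfl⟩ (by simpa using hx)
    subst hU
    exact ⟨fun _ _ => False, ⟨fun _ _ h => h.elim, fun b hb => by simp at hb,
      fun _ _ _ h => h.elim, fun _ _ h => h.elim, fun _ _ _ h => h.elim,
      fun a ha => by simp at ha, fun _ => ⟨∅, by simp, fun _ h => h.elim⟩⟩⟩
  | d + 1, U, h => by
    have h1 : ∀ C : Finset V, IsComp G U C → ∃ v ∈ C, ∃ anc, IsElim G d (C.erase v) anc := by
      intro C hC
      obtain ⟨v, hv, hE⟩ := h C hC
      exact ⟨v, hv, exists_elim d _ hE⟩
    choose v hv anc hanc using h1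
    have huniq : ∀ {C C' : Finset V} (hC : IsComp G U C) (hC' : IsComp G U C') {x : V},
        x ∈ C → x ∈ C' → C = C' := by
      intro C C' hC hC' x hx hx'
      exact hC.eq_of_mem hC' hx hx'
    refine ⟨fun a b => ∃ (C : Finset V) (hC : IsComp G U C), a ∈ C ∧ b ∈ C ∧
      (a = v C hC ∨ anc C hC a b), ?_⟩
    have hmem : ∀ {C : Finset V} (hC : IsComp G U C) {a b : V}, anc C hC a b →
        a ≠ v C hC ∧ b ≠ v C hC := by
      intro C hC a b hab
      have := (hanc C hC).supp a b hab
      rw [Finset.mem_erase, Finset.mem_erase] at this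
      exact ⟨this.1.1, this.2.1⟩
    refine ⟨?_, ?_, ?_, ?_, ?_, ?_, ?_⟩
    · rintro a b ⟨C, hC, ha, hb, -⟩
      exact ⟨hC.2.1 ha, hC.2.1 hb⟩
    · intro b hb
      obtain ⟨C, hC, hbC⟩ := exists_comp (G := G) hb
      refine ⟨C, hC, hbC, hbC, ?_⟩
      by_cases hbv : b = v C hC
      · exact Or.inl hbv
      · exact Or.inr ((hanc C hC).refl b (Finset.mem_erase.2 ⟨hbv, hbC⟩))
    · rintro a b c ⟨C, hC, ha, hb, hab⟩ ⟨C', hC', hb', hc, hbc⟩
      obtain rfl := huniq hC hC' hb hb'
      refine ⟨C, hC, ha, hc, ?_⟩
      rcases hab with hab | hab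
      · exact Or.inl hab
      · rcases hbc with hbc | hbc
        · exact absurd hbc (hmem hC hab).2
        · exact Or.inr ((hanc C hC).trans a b c hab hbc)
    · rintro a b ⟨C, hC, ha, hb, hab⟩ ⟨C', hC', hb', ha', hba⟩
      obtain rfl := huniq hC hC' hb hb'
      rcases hab with hab | hab
      · rcases hba with hba | hba
        · rw [hab, hba]
        · exact absurd hab (hmem hC hba).2
      · rcases hba with hba | hba
        · exact absurd hba (hmem hC hab).2
        · exact (hanc C hC).antisymm a b hab hba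
    · rintro a b c ⟨C, hC, ha, hc, hac⟩ ⟨C', hC', hb, hc', hbc⟩
      obtain rfl := huniq hC hC' hc hc'
      rcases hac with hac | hac
      · exact Or.inl ⟨C, hC, ha, hb, Or.inl hac⟩
      · rcases hbc with hbc | hbc
        · exact Or.inr ⟨C, hC, hb, ha, Or.inl hbc⟩
        · rcases (hanc C hC).chain a b c hac hbc with h | h
          · exact Or.inl ⟨C, hC, ha, hb, Or.inr h⟩
          · exact Or.inr ⟨C, hC, hb, ha, Or.inr h⟩
    · intro a ha b hb hab
      obtain ⟨C, hC, haC⟩ := exists_comp (G := G) ha
      have hbC : b ∈ C := hC.2.2 a haC b hb hab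
      by_cases hav : a = v C hC
      · exact Or.inl ⟨C, hC, haC, hbC, Or.inl hav⟩
      by_cases hbv : b = v C hC
      · exact Or.inr ⟨C, hC, hbC, haC, Or.inl hbv⟩
      rcases (hanc C hC).adj a (Finset.mem_erase.2 ⟨hav, haC⟩) b (Finset.mem_erase.2 ⟨hbv, hbC⟩) hab
        with h | h
      · exact Or.inl ⟨C, hC, haC, hbC, Or.inr h⟩
      · exact Or.inr ⟨C, hC, hbC, haC, Or.inr h⟩
    · intro b
      by_cases hb : b ∈ U
      · obtain ⟨C, hC, hbC⟩ := exists_comp (G := G) hb
        obtain ⟨S, hS, hSa⟩ := (hanc C hC).height b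
        refine ⟨insert (v C hC) S, (Finset.card_insert_le _ _).trans (by omega), ?_⟩
        rintro a ⟨C', hC', ha, hb', hab⟩
        obtain rfl := huniq hC hC' hbC hb'
        rcases hab with hab | hab
        · rw [hab]; exact Finset.mem_insert_self _ _
        · exact Finset.mem_insert_of_mem (hSa a hab)
      · refine ⟨∅, by simp, ?_⟩
        rintro a ⟨C, hC, ha, hb', -⟩
        exact absurd (hC.2.1 hb') hb

lemma treedepth_le_of_el [Fintype V] {d : ℕ}
    (h : El G (fun B => ∃ x, B = {x}) d Finset.univ) : treedepth G ≤ d := by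
  obtain ⟨anc, hanc⟩ := exists_elim d _ h
  refine Nat.sInf_le ⟨⟨anc, fun v => hanc.refl v (Finset.mem_univ _), hanc.trans, hanc.antisymm,
    hanc.chain⟩, fun u v huv => hanc.adj u (Finset.mem_univ _) v (Finset.mem_univ _) huv, ?_⟩
  intro v
  obtain ⟨S, hS, hSa⟩ := hanc.height v
  calc {a | anc a v}.ncard ≤ (S : Set V).ncard :=
        Set.ncard_le_ncard (fun a ha => hSa a ha) S.finite_toSet
    _ = S.card := Set.ncard_coe_finset S
    _ ≤ d := hS

/-- In a graph without an induced path on `t + 1` vertices, two vertices of a connected set are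
joined in the set by a walk with at most `t` vertices. -/
lemma exists_short {t : ℕ} (hP : ¬ Nonempty (pathGraph (t + 1) ↪g G)) {W : Finset V} (hW : Cn G W)
    {x y : V} (hx : x ∈ W) (hy : y ∈ W) :
    ∃ p : G.Walk x y, (∀ z ∈ p.support, z ∈ W) ∧ p.length < t := by
  classical
  have hne : ∃ n, ∃ p : G.Walk x y, (∀ z ∈ p.support, z ∈ W) ∧ p.length = n := by
    obtain ⟨p, hp⟩ := hW.2 x hx y hy
    exact ⟨_, p, hp, rfl⟩
  obtain ⟨p, hp, hpl⟩ := Nat.find_spec hne
  have hmin : ∀ q : G.Walk x y, (∀ z ∈ q.support, z ∈ W) → p.length ≤ q.length := by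
    intro q hq
    rw [hpl]
    exact Nat.find_min' hne ⟨q, hq, rfl⟩
  refine ⟨p, hp, ?_⟩
  by_contra hlt
  push Not at hlt
  apply hP
  -- the distance between vertices of the shortest walk
  have hsub1 : ∀ i, ∀ z ∈ (p.take i).support, z ∈ W := fun i z hz => hp z (by
    rw [p.support_take i] at hz
    exact List.mem_of_mem_take hz)
  have hsub2 : ∀ i, ∀ z ∈ (p.drop i).support, z ∈ W := fun i z hz => hp z (by
    rw [p.drop_support_eq_support_drop_min i] at hz
    exact List.mem_of_mem_drop hz)
  have key : ∀ i j, i ≤ p.length → j ≤ p.length → i < j →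
      ∀ r : G.Walk (p.getVert i) (p.getVert j), (∀ z ∈ r.support, z ∈ W) → j ≤ i + r.length := by
    intro i j hi hj hij r hr
    have h1 := hmin (((p.take i).append r).append (p.drop j)) (by
      intro z hz
      rw [Walk.mem_support_append_iff, Walk.mem_support_append_iff] at hz
      rcases hz with (hz | hz) | hz
      · exact hsub1 i z hz
      · exact hr z hz
      · exact hsub2 j z hz)
    rw [Walk.length_append, Walk.length_append, Walk.take_length, Walk.drop_length] at h1
    omega
  have hinj : ∀ i j, i ≤ p.length → j ≤ p.length → i < j → p.getVert i ≠ p.getVert j := by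
    intro i j hi hj hij he
    have := key i j hi hj hij (Walk.nil.copy rfl he) (by
      intro z hz
      simp only [Walk.support_copy, Walk.support_nil, List.mem_singleton] at hz
      rw [hz]
      exact hp _ (p.getVert_mem_support i))
    simp at this
    omega
  have hadj : ∀ i j, i ≤ p.length → j ≤ p.length → i < j → G.Adj (p.getVert i) (p.getVert j) →
      j = i + 1 := by
    intro i j hi hj hij he
    have := key i j hi hj hij (Walk.cons he Walk.nil) (by
      intro z hz
      simp only [Walk.support_cons, Walk.support_nil, List.mem_cons, List.not_mem_nil,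
        or_false] at hz
      rcases hz with rfl | rfl
      · exact hp _ (p.getVert_mem_support i)
      · exact hp _ (p.getVert_mem_support j))
    simp at this
    omega
  have hf : Function.Injective (fun i : Fin (t + 1) => p.getVert i) := by
    intro i j hij
    by_contra hne
    have hi : (i : ℕ) ≤ p.length := by have := i.2; omega
    have hj : (j : ℕ) ≤ p.length := by have := j.2; omega
    rcases Nat.lt_or_gt_of_ne (fun h => hne (Fin.ext h)) with h | h
    · exact hinj i j hi hj h hij
    · exact hinj j i hj hi h hij.symm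
  refine ⟨⟨⟨fun i => p.getVert i, hf⟩, ?_⟩⟩
  · intro i j
    have hi : (i : ℕ) ≤ p.length := by have := i.2; omega
    have hj : (j : ℕ) ≤ p.length := by have := j.2; omega
    rw [pathGraph_adj]
    change G.Adj (p.getVert i) (p.getVert j) ↔ _
    constructor
    · intro h
      rcases Nat.lt_trichotomy (i : ℕ) j with hij | hij | hij
      · exact Or.inl (hadj i j hi hj hij h).symm
      · rw [hij] at h; exact absurd h (G.loopless.irrefl _)
      · exact Or.inr (hadj j i hj hi hij h.symm).symm
    · rintro (h | h)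
      · have := p.adj_getVert_succ (i := i) (by omega)
        rwa [h] at this
      · have := p.adj_getVert_succ (i := j) (by omega)
        rw [h] at this
        exact this.symm

theorem treedepth_le_of_brBound [Fintype V] {K s : ℕ} (hK : BrBound G K)
    (hP : ¬ Nonempty (pathGraph (s + 3) ↪g G)) : treedepth G ≤ Phi K s := by
  refine treedepth_le_of_el (el_of_close hK s _ ?_ _ ?_)
  · rintro B ⟨x, rfl⟩
    exact Cn.singleton x
  · rintro W hWU hW B₁ B₂ ⟨x, rfl⟩ ⟨y, rfl⟩ hx hy
    obtain ⟨p, hp, hpl⟩ := exists_short (t := s + 2) hP hW (by simpa using hx) (by simpa using hy)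
    exact ⟨x, by simp, y, by simp, p, hp, by omega⟩

end Pool.Agent.Helper49.TD
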