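import Pool.Agent.Helper49.TD.Defs

/-!
# A tree decomposition from a rooted forest
-/

set_option autoImplicit false
set_option linter.unusedSectionVars false
set_option linter.unusedVariables false

namespace Pool.Agent.Helper49.TD

open SimpleGraph

variable {V : Type} [Finite V]

/-- the number of ancestors -/
noncomputable def RootedForest.depth (F : RootedForest V) (v : V) : ℕ := {a | F.anc a v}.ncard

lemma RootedForest.depth_lt (F : RootedForest V) {a b : V} (h : F.anc a b) (hne : a ≠ b) :
    F.depth a < F.depth b := by
  apply Set.ncard_lt_ncard _ (Set.toFinite _)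
  refine ⟨fun c hc => F.trans c a b hc h, fun hsub => hne ?_⟩
  exact F.antisymm a b h (hsub (F.refl b))

/-- Every vertex is a root or has a parent. -/
lemma RootedForest.exists_parent (F : RootedForest V) (v : V) :
    ∃ p : Option V, (p = none → ∀ a, F.anc a v → a = v) ∧
      ∀ m, p = some m → F.anc m v ∧ m ≠ v ∧ ∀ a, F.anc a v → a ≠ v → F.anc a m := by
  classical
  by_cases h : ∃ a, F.anc a v ∧ a ≠ v
  · obtain ⟨m, hm, hmax⟩ := Set.exists_max_image {a | F.anc a v ∧ a ≠ v} F.depth (Set.toFinite _) h
    refine ⟨some m, fun h => by simp at h, ?_⟩
    rintro m' hm'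
    rw [Option.some_inj] at hm'
    subst hm'
    refine ⟨hm.1, hm.2, fun a ha hav => ?_⟩
    rcases F.chain a m v ha hm.1 with h1 | h1
    · exact h1
    · by_cases he : m = a
      · rw [← he]; exact F.refl m
      · have h2 := F.depth_lt h1 he
        have h3 := hmax a ⟨ha, hav⟩
        omega
  · refine ⟨none, fun _ a ha => ?_, fun m hm => by simp at hm⟩
    by_contra hne
    exact h ⟨a, ha, hne⟩

/-- The parent of a vertex, `none` for a root. -/
noncomputable def RootedForest.par (F : RootedForest V) (v : V) : Option V :=
  (F.exists_parent v).choose

lemma RootedForest.par_none (F : RootedForest V) {v : V} (h : F.par v = none) :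
    ∀ a, F.anc a v → a = v := (F.exists_parent v).choose_spec.1 h

lemma RootedForest.par_some (F : RootedForest V) {v m : V} (h : F.par v = some m) :
    F.anc m v ∧ m ≠ v ∧ ∀ a, F.anc a v → a ≠ v → F.anc a m :=
  (F.exists_parent v).choose_spec.2 m h

/-- The tree on `V` and a further root `none`. -/
noncomputable def RootedForest.tree (F : RootedForest V) : SimpleGraph (Option V) :=
  SimpleGraph.fromEdgeSet (Set.range fun v => s(some v, F.par v))

lemma RootedForest.par_ne (F : RootedForest V) (v : V) : some v ≠ F.par v := by
  intro h
  exact (F.par_some h.symm).2.1 rfl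

lemma RootedForest.tree_adj (F : RootedForest V) (v : V) : F.tree.Adj (some v) (F.par v) := by
  unfold RootedForest.tree
  rw [SimpleGraph.fromEdgeSet_adj]
  exact ⟨⟨v, rfl⟩, F.par_ne v⟩

lemma RootedForest.tree_isTree (F : RootedForest V) : F.tree.IsTree := by
  classical
  rw [isTree_iff_connected_and_card]
  have hreach : ∀ n, ∀ v, F.depth v ≤ n → F.tree.Reachable (some v) none := by
    intro n
    induction n with
    | zero =>
      intro v hv
      exfalso
      have : F.depth v = 0 := by omega
      unfold RootedForest.depth at this
      rw [Set.ncard_eq_zero (Set.toFinite _)] at this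
      have h : v ∈ {a | F.anc a v} := F.refl v
      rw [this] at h
      exact h
    | succ n ih =>
      intro v hv
      have h1 := (F.tree_adj v).reachable
      cases hp : F.par v with
      | none => rw [hp] at h1; exact h1
      | some m =>
        rw [hp] at h1
        have hm := F.par_some hp
        have := F.depth_lt hm.1 hm.2.1
        exact h1.trans (ih m (by omega))
  refine ⟨⟨?_⟩, ?_⟩
  · intro x y
    have key : ∀ x : Option V, F.tree.Reachable x none := by
      intro x
      cases x with
      | none => exact Reachable.refl _
      | some v => exact hreach _ v le_rfl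
    exact (key x).trans (key y).symm
  · have h1 : F.tree.edgeSet = Set.range fun v => s(some v, F.par v) := by
      unfold RootedForest.tree
      rw [SimpleGraph.edgeSet_fromEdgeSet]
      ext e
      constructor
      · exact fun h => h.1
      · rintro ⟨v, rfl⟩
        refine ⟨⟨v, rfl⟩, ?_⟩
        intro h
        exact F.par_ne v h
    have hinj : Function.Injective (fun v => s(some v, F.par v)) := by
      intro v w hvw
      simp only [Sym2.eq_iff] at hvw
      rcases hvw with ⟨h, -⟩ | ⟨h, h'⟩
      · exact Option.some_injective _ h
      · exfalso
        have h1 := F.par_some h.symm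
        have h2 := F.par_some h'
        have h3 := F.depth_lt h1.1 h1.2.1
        have h4 := F.depth_lt h2.1 h2.2.1
        omega
    rw [h1]
    have h2 : Nat.card (Set.range fun v => s(some v, F.par v)) = Nat.card V :=
      Nat.card_congr (Equiv.ofInjective _ hinj).symm
    rw [h2]
    have := Fintype.ofFinite V
    rw [Nat.card_eq_fintype_card, Nat.card_eq_fintype_card, Fintype.card_option]

/-- The bag of a vertex. -/
def RootedForest.bagSet (F : RootedForest V) (G : SimpleGraph V) (u : V) : Set V :=
  {a | a ≠ u ∧ F.anc a u ∧ ∃ d, F.anc u d ∧ G.Adj a d}

open Classical in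
/-- The tree decomposition given by a rooted forest. -/
noncomputable def RootedForest.decomp (F : RootedForest V) (G : SimpleGraph V)
    (hadj : ∀ u v, G.Adj u v → F.anc u v ∨ F.anc v u) : TreeDecomposition G where
  ι := Option V
  finite := inferInstance
  T := F.tree
  isTree := F.tree_isTree
  bag := fun t => match t with
    | none => ∅
    | some u => insert u (Set.toFinite (F.bagSet G u)).toFinset
  cover := fun v => ⟨some v, by simp⟩
  edge := by
    have key : ∀ u v, G.Adj u v → F.anc u v → ∃ t : Option V,
        u ∈ (match t with
          | none => ∅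
          | some u => insert u (Set.toFinite (F.bagSet G u)).toFinset : Finset V) ∧
        v ∈ (match t with
          | none => ∅
          | some u => insert u (Set.toFinite (F.bagSet G u)).toFinset : Finset V) := by
      intro u v huv h
      refine ⟨some v, ?_, by simp⟩
      simp only [Finset.mem_insert, Set.Finite.mem_toFinset]
      exact Or.inr ⟨huv.ne, h, v, F.refl v, huv⟩
    intro u v huv
    rcases hadj u v huv with h | h
    · exact key u v huv h
    · obtain ⟨t, h1, h2⟩ := key v u huv.symm h
      exact ⟨t, h2, h1⟩
  connected := by
    intro v
    set S : Set (Option V) := {t | v ∈ (match t with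
      | none => ∅
      | some u => insert u (Set.toFinite (F.bagSet G u)).toFinset : Finset V)} with hS
    have hmem : ∀ u, some u ∈ S ↔ (v = u ∨ v ∈ F.bagSet G u) := by
      intro u
      simp only [hS, Set.mem_setOf_eq, Finset.mem_insert, Set.Finite.mem_toFinset]
    have hnone : none ∉ S := by
      simp only [hS, Set.mem_setOf_eq, Finset.notMem_empty, not_false_eq_true]
    have hv : some v ∈ S := (hmem v).2 (Or.inl rfl)
    have key : ∀ n, ∀ u (hu : some u ∈ S), F.depth u ≤ n →
        (F.tree.induce S).Reachable ⟨some u, hu⟩ ⟨some v, hv⟩ := by
      intro n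
      induction n with
      | zero =>
        intro u hu hd
        exfalso
        have : F.depth u = 0 := by omega
        unfold RootedForest.depth at this
        rw [Set.ncard_eq_zero (Set.toFinite _)] at this
        have h : u ∈ {a | F.anc a u} := F.refl u
        rw [this] at h
        exact h
      | succ n ih =>
        intro u hu hd
        by_cases huv : v = u
        · subst huv
          exact Reachable.refl _
        obtain ⟨hne, hanc, d, hd1, hd2⟩ := ((hmem u).1 hu).resolve_left huv
        cases hp : F.par u with
        | none => exact absurd (F.par_none hp v hanc) hne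
        | some m =>
          have hm := F.par_some hp
          have hvm : F.anc v m := hm.2.2 v hanc hne
          have hmS : some m ∈ S := by
            rw [hmem]
            by_cases hvm' : v = m
            · exact Or.inl hvm'
            · exact Or.inr ⟨hvm', hvm, d, F.trans m u d hm.1 hd1, hd2⟩
          have hlt := F.depth_lt hm.1 hm.2.1
          have h1 := ih m hmS (by omega)
          have h2 : (F.tree.induce S).Adj ⟨some u, hu⟩ ⟨some m, hmS⟩ := by
            have := F.tree_adj u
            rw [hp] at this
            exact this
          exact h2.reachable.trans h1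
    haveI : Nonempty S := ⟨⟨some v, hv⟩⟩
    refine ⟨?_⟩
    rintro ⟨x, hx⟩ ⟨y, hy⟩
    have key' : ∀ x (hx : x ∈ S), (F.tree.induce S).Reachable ⟨x, hx⟩ ⟨some v, hv⟩ := by
      intro x hx
      cases x with
      | none => exact absurd hx hnone
      | some u => exact key _ u hx le_rfl
    exact (key' x hx).trans (key' y hy).symm

theorem treewidth_le_of_forest (F : RootedForest V) (G : SimpleGraph V)
    (hadj : ∀ u v, G.Adj u v → F.anc u v ∨ F.anc v u) (k : ℕ)
    (hk : ∀ u, (F.bagSet G u).ncard ≤ k) : treewidth G ≤ k := by
  classical
  refine Nat.sInf_le ⟨F.decomp G hadj, ?_⟩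
  intro t
  cases t with
  | none =>
    change (∅ : Finset V).card ≤ k + 1
    simp
  | some u =>
    change (insert u (Set.toFinite (F.bagSet G u)).toFinset).card ≤ k + 1
    refine (Finset.card_insert_le _ _).trans ?_
    rw [← Set.ncard_eq_toFinset_card]
    have := hk u
    omega

end Pool.Agent.Helper49.TD
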