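import Pool.Agent.Helper49.TD.ForestDecomp

/-!
# The lower bound: coronas
-/

set_option autoImplicit false
set_option linter.unusedSectionVars false
set_option linter.unusedVariables false

namespace Pool.Agent.Helper49.TD

open SimpleGraph

/-- There is a finite graph without an induced path on `n` vertices, of treedepth at least `D`, with
a rooted forest whose bags have at most `k + 1` elements. -/
def Good (k n D : ℕ) : Prop :=
  ∃ (V : Type) (_ : Finite V) (G : SimpleGraph V) (F : RootedForest V),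
    (∀ u v, G.Adj u v → F.anc u v ∨ F.anc v u) ∧ (∀ u, (F.bagSet G u).ncard ≤ k) ∧
    ¬ Nonempty (pathGraph n ↪g G) ∧ D ≤ treedepth G

lemma exists_deep {V : Type} {G : SimpleGraph V} {D : ℕ} (h1 : 1 ≤ D)
    (hD : D ≤ treedepth G) (F : RootedForest V) (hF : ∀ u v, G.Adj u v → F.anc u v ∨ F.anc v u) :
    ∃ v, D ≤ {a | F.anc a v}.ncard := by
  by_contra hcon
  push Not at hcon
  have : treedepth G ≤ D - 1 :=
    Nat.sInf_le ⟨F, hF, fun v => by have := hcon v; omega⟩
  omega

lemma le_treedepth {V : Type} [Finite V] {G : SimpleGraph V} {D : ℕ}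
    (h : ∀ F : RootedForest V, (∀ u v, G.Adj u v → F.anc u v ∨ F.anc v u) →
      ∃ v, D ≤ {a | F.anc a v}.ncard) : D ≤ treedepth G := by
  classical
  have := Fintype.ofFinite V
  have hne : {d | ∃ F : RootedForest V, (∀ u v, G.Adj u v → F.anc u v ∨ F.anc v u) ∧
      ∀ v, {a | F.anc a v}.ncard ≤ d}.Nonempty := by
    let e := Fintype.equivFin V
    refine ⟨Nat.card V, ⟨fun a b => e a ≤ e b, fun v => le_rfl, fun a b c => le_trans,
      fun a b h h' => e.injective (le_antisymm h h'), fun a b v _ _ => le_total _ _⟩,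
      fun u v _ => le_total _ _, fun v => Set.ncard_le_card _⟩
  obtain ⟨F, hF, hd⟩ := Nat.sInf_mem hne
  obtain ⟨v, hv⟩ := h F hF
  exact hv.trans (hd v)

lemma good_clique (k : ℕ) : Good k 3 (k + 1) := by
  refine ⟨Fin (k + 1), inferInstance, ⊤, ⟨fun a b => a ≤ b, fun v => le_rfl, fun a b c => le_trans,
    fun a b h h' => le_antisymm h h', fun a b v _ _ => le_total _ _⟩, fun u v _ => le_total _ _,
    ?_, ?_, ?_⟩
  · intro u
    have h1 : (RootedForest.bagSet ⟨fun a b => a ≤ b, fun v => le_rfl, fun a b c => le_trans,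
      fun a b h h' => le_antisymm h h', fun a b v _ _ => le_total _ _⟩ (⊤ : SimpleGraph (Fin (k + 1)))
      u) ⊆ ((Finset.univ.erase u : Finset (Fin (k + 1))) : Set (Fin (k + 1))) := by
      intro a ha
      simp only [Finset.coe_erase, Finset.coe_univ, Set.mem_sdiff, Set.mem_univ,
        Set.mem_singleton_iff, true_and]
      exact ha.1
    refine (Set.ncard_le_ncard h1 (Finset.finite_toSet _)).trans ?_
    rw [Set.ncard_coe_finset, Finset.card_erase_of_mem (Finset.mem_univ _), Finset.card_univ,
      Fintype.card_fin]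
    omega
  · rintro ⟨φ⟩
    have h1 : ¬ (pathGraph 3).Adj 0 2 := by
      rw [pathGraph_adj]
      simp
    apply h1
    rw [← φ.map_adj_iff, SimpleGraph.top_adj]
    intro h
    have := φ.injective h
    simp at this
  · refine le_treedepth fun F hF => ?_
    by_contra hcon
    push Not at hcon
    -- take a vertex with the largest number of ancestors
    obtain ⟨v, -, hv⟩ := Finset.exists_max_image (Finset.univ : Finset (Fin (k + 1))) F.depth
      ⟨0, by simp⟩
    have h1 : ∀ a, F.anc a v := by
      intro a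
      by_cases hav : a = v
      · rw [hav]; exact F.refl v
      rcases hF a v hav with h | h
      · exact h
      · have h2 := F.depth_lt h (fun h => hav h.symm)
        have h3 := hv a (Finset.mem_univ _)
        omega
    have h2 := hcon v
    have h3 : {a | F.anc a v} = Set.univ := Set.eq_univ_of_forall h1
    rw [h3, Set.ncard_univ, Nat.card_eq_fintype_card, Fintype.card_fin] at h2
    omega

lemma good_single (k n : ℕ) (hn : 2 ≤ n) : Good k n 1 := by
  refine ⟨Unit, inferInstance, ⊥, ⟨fun a b => True, fun v => trivial, fun a b c _ _ => trivial,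
    fun a b _ _ => rfl, fun a b v _ _ => Or.inl trivial⟩, fun u v _ => Or.inl trivial, ?_, ?_, ?_⟩
  · intro u
    have h1 : (RootedForest.bagSet ⟨fun a b => True, fun v => trivial, fun a b c _ _ => trivial,
      fun a b _ _ => rfl, fun a b v _ _ => Or.inl trivial⟩ (⊥ : SimpleGraph Unit) u) = ∅ := by
      ext a
      simp only [Set.mem_empty_iff_false, iff_false]
      intro ha
      exact ha.1 rfl
    rw [h1]
    simp
  · rintro ⟨φ⟩
    have h1 : (⟨0, by omega⟩ : Fin n) = ⟨1, by omega⟩ := φ.injective rfl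
    simp at h1
  · refine le_treedepth fun F hF => ⟨(), ?_⟩
    rw [Nat.succ_le_iff, Set.ncard_pos (Set.toFinite _)]
    exact ⟨(), F.refl _⟩

/-- The corona: every vertex of `M` is joined to all vertices of `r` copies of `Q`. -/
def corona {A B : Type} (M : SimpleGraph A) (Q : SimpleGraph B) (r : ℕ) :
    SimpleGraph (A ⊕ A × Fin r × B) where
  Adj x y := match x, y with
    | Sum.inl a, Sum.inl a' => M.Adj a a'
    | Sum.inl a, Sum.inr (a', _, _) => a = a'
    | Sum.inr (a, _, _), Sum.inl a' => a = a'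
    | Sum.inr (a, i, b), Sum.inr (a', i', b') => a = a' ∧ i = i' ∧ Q.Adj b b'
  symm := ⟨fun x y h => by
    rcases x with a | ⟨a, i, b⟩ <;> rcases y with a' | ⟨a', i', b'⟩
    · exact M.symm.symm _ _ h
    · exact Eq.symm h
    · exact Eq.symm h
    · exact ⟨h.1.symm, h.2.1.symm, h.2.2.symm⟩⟩
  loopless := ⟨fun x h => by
    rcases x with a | ⟨a, i, b⟩
    · exact M.loopless.irrefl a h
    · exact Q.loopless.irrefl b h.2.2⟩

/-- The rooted forest of the corona. -/
def coronaForest {A B : Type} (F : RootedForest A) (F' : RootedForest B) (r : ℕ) :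
    RootedForest (A ⊕ A × Fin r × B) where
  anc x y := match x, y with
    | Sum.inl a, Sum.inl a' => F.anc a a'
    | Sum.inl a, Sum.inr (a', _, _) => F.anc a a'
    | Sum.inr _, Sum.inl _ => False
    | Sum.inr (a, i, b), Sum.inr (a', i', b') => a = a' ∧ i = i' ∧ F'.anc b b'
  refl x := by
    rcases x with a | ⟨a, i, b⟩
    · exact F.refl a
    · exact ⟨rfl, rfl, F'.refl b⟩
  trans x y z h h' := by
    rcases x with a | ⟨a, i, b⟩ <;> rcases y with a' | ⟨a', i', b'⟩ <;>
      rcases z with a'' | ⟨a'', i'', b''⟩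
    · exact F.trans _ _ _ h h'
    · exact F.trans _ _ _ h h'
    · exact h'.elim
    · obtain ⟨rfl, -, -⟩ := h'
      exact h
    · exact h.elim
    · exact h.elim
    · exact h'.elim
    · obtain ⟨rfl, rfl, h1⟩ := h
      obtain ⟨rfl, rfl, h2⟩ := h'
      exact ⟨rfl, rfl, F'.trans _ _ _ h1 h2⟩
  antisymm x y h h' := by
    rcases x with a | ⟨a, i, b⟩ <;> rcases y with a' | ⟨a', i', b'⟩
    · rw [F.antisymm _ _ h h']
    · exact h'.elim
    · exact h.elim
    · obtain ⟨rfl, rfl, h1⟩ := h
      obtain ⟨-, -, h2⟩ := h'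
      rw [F'.antisymm _ _ h1 h2]
  chain x y z h h' := by
    rcases x with a | ⟨a, i, b⟩ <;> rcases y with a' | ⟨a', i', b'⟩ <;>
      rcases z with a'' | ⟨a'', i'', b''⟩
    · exact F.chain _ _ _ h h'
    · exact F.chain _ _ _ h h'
    · exact h'.elim
    · obtain ⟨rfl, -, -⟩ := h'
      exact Or.inl h
    · exact h.elim
    · obtain ⟨rfl, -, -⟩ := h
      exact Or.inr h'
    · exact h'.elim
    · obtain ⟨rfl, rfl, h1⟩ := h
      obtain ⟨rfl, rfl, h2⟩ := h'
      rcases F'.chain _ _ _ h1 h2 with h3 | h3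
      · exact Or.inl ⟨rfl, rfl, h3⟩
      · exact Or.inr ⟨rfl, rfl, h3⟩

/-- The pullback of a rooted forest. -/
def RootedForest.comap {A B : Type} (F : RootedForest B) (f : A → B)
    (hf : Function.Injective f) : RootedForest A where
  anc a b := F.anc (f a) (f b)
  refl a := F.refl _
  trans a b c := F.trans _ _ _
  antisymm a b h h' := hf (F.antisymm _ _ h h')
  chain a b v := F.chain _ _ _

lemma corona_pathFree {A B : Type} {M : SimpleGraph A} {Q : SimpleGraph B} {r n : ℕ} (hn : 1 ≤ n)
    (hM : ¬ Nonempty (pathGraph n ↪g M)) (hQ : ¬ Nonempty (pathGraph (n + 2) ↪g Q)) :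
    ¬ Nonempty (pathGraph (n + 2) ↪g corona M Q r) := by
  classical
  rintro ⟨φ⟩
  have hadj : ∀ (i j : ℕ) (hi : i < n + 2) (hj : j < n + 2),
      (corona M Q r).Adj (φ ⟨i, hi⟩) (φ ⟨j, hj⟩) ↔ (i + 1 = j ∨ j + 1 = i) := by
    intro i j hi hj
    rw [φ.map_adj_iff, pathGraph_adj]
  by_cases hint : ∃ (i : ℕ) (hi : i < n + 2), 1 ≤ i ∧ i ≤ n ∧ ∃ x, φ ⟨i, hi⟩ = Sum.inr x
  · obtain ⟨i₀, hi₀, h1, h2, ⟨w, l, q₀⟩, h3⟩ := hint
    -- everything lies in one copy of `Q`
    have hstep : ∀ (i : ℕ) (hi : i < n + 2) (hi1 : 1 ≤ i) (hin : i ≤ n),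
        (∃ q, φ ⟨i, hi⟩ = Sum.inr (w, l, q)) →
        (∃ q, φ ⟨i + 1, by omega⟩ = Sum.inr (w, l, q)) ∧
        (∃ q, φ ⟨i - 1, by omega⟩ = Sum.inr (w, l, q)) := by
      rintro i hi hi1 hin ⟨q, hq⟩
      have ha := (hadj i (i + 1) hi (by omega)).2 (Or.inl rfl)
      have hb := (hadj i (i - 1) hi (by omega)).2 (Or.inr (by omega))
      have hc : ¬ (corona M Q r).Adj (φ ⟨i + 1, by omega⟩) (φ ⟨i - 1, by omega⟩) := by
        rw [hadj]
        omega
      have hne : φ ⟨i + 1, by omega⟩ ≠ φ ⟨i - 1, by omega⟩ := by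
        intro h
        have := φ.injective h
        simp at this
        omega
      rw [hq] at ha hb
      rcases hx : φ ⟨i + 1, by omega⟩ with a | ⟨a, l', b⟩ <;>
        rcases hy : φ ⟨i - 1, by omega⟩ with a' | ⟨a', l'', b'⟩
      · rw [hx] at ha hne
        rw [hy] at hb hne
        have ha' : w = a := ha
        have hb' : w = a' := hb
        exact absurd (by rw [← ha', ← hb']) hne
      · rw [hx] at ha hc
        rw [hy] at hb hc
        have ha' : w = a := ha
        have hb' : w = a' := hb.1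
        exact absurd (show a = a' by rw [← ha', ← hb']) hc
      · rw [hx] at ha hc
        rw [hy] at hb hc
        have ha' : w = a := ha.1
        have hb' : w = a' := hb
        exact absurd (show a = a' by rw [← ha', ← hb']) hc
      · rw [hx] at ha
        rw [hy] at hb
        obtain ⟨rfl, rfl, -⟩ := ha
        obtain ⟨rfl, rfl, -⟩ := hb
        exact ⟨⟨b, rfl⟩, ⟨b', rfl⟩⟩
    have hup : ∀ d, ∀ (hd : i₀ + d < n + 2), ∃ q, φ ⟨i₀ + d, hd⟩ = Sum.inr (w, l, q) := by
      intro d
      induction d with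
      | zero => intro hd; exact ⟨q₀, h3⟩
      | succ d ih =>
        intro hd
        exact (hstep (i₀ + d) (by omega) (by omega) (by omega) (ih (by omega))).1
    have hdown : ∀ d, d ≤ i₀ → ∃ q, φ ⟨i₀ - d, by omega⟩ = Sum.inr (w, l, q) := by
      intro d
      induction d with
      | zero => intro hd; exact ⟨q₀, h3⟩
      | succ d ih =>
        intro hd
        have := (hstep (i₀ - d) (by omega) (by omega) (by omega) (ih (by omega))).2
        have he : i₀ - d - 1 = i₀ - (d + 1) := by omega
        simpa only [he] using this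
    have hall : ∀ i : Fin (n + 2), ∃ q, φ i = Sum.inr (w, l, q) := by
      rintro ⟨i, hi⟩
      rcases Nat.le_total i₀ i with h | h
      · have := hup (i - i₀) (by omega)
        have he : i₀ + (i - i₀) = i := by omega
        simpa only [he] using this
      · have := hdown (i₀ - i) (by omega)
        have he : i₀ - (i₀ - i) = i := by omega
        simpa only [he] using this
    choose ψ hψ using hall
    apply hQ
    have hinj : Function.Injective ψ := by
      intro i j hij
      apply φ.injective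
      rw [hψ i, hψ j, hij]
    refine ⟨⟨⟨ψ, hinj⟩, ?_⟩⟩
    intro i j
    change Q.Adj (ψ i) (ψ j) ↔ _
    rw [← φ.map_adj_iff, hψ i, hψ j]
    constructor
    · intro h
      exact ⟨rfl, rfl, h⟩
    · intro h
      exact h.2.2
  · push Not at hint
    have hall : ∀ i : Fin n, ∃ a, φ ⟨i + 1, by omega⟩ = Sum.inl a := by
      intro i
      rcases hx : φ ⟨i + 1, by omega⟩ with a | x
      · exact ⟨a, rfl⟩
      · exact absurd hx (hint (i + 1) (by omega) (by omega) (by omega) x)
    choose ψ hψ using hall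
    apply hM
    have hinj : Function.Injective ψ := by
      intro i j hij
      have : φ ⟨i + 1, by omega⟩ = φ ⟨j + 1, by omega⟩ := by
        rw [hψ i, hψ j, hij]
      have := φ.injective this
      simp only [Fin.mk.injEq, Nat.add_right_cancel_iff] at this
      exact Fin.ext this
    refine ⟨⟨⟨ψ, hinj⟩, ?_⟩⟩
    intro i j
    change M.Adj (ψ i) (ψ j) ↔ _
    have h1 := hadj (i + 1) (j + 1) (by omega) (by omega)
    rw [hψ i, hψ j] at h1
    rw [pathGraph_adj]
    constructor
    · intro h
      have := h1.1 h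
      omega
    · intro h
      exact h1.2 (by omega)

lemma good_corona {k n D₁ D₂ : ℕ} (hn : 1 ≤ n) (hD₁ : 1 ≤ D₁) (hD₂ : 1 ≤ D₂)
    (hM : Good (k + 1) n D₁) (hQ : Good k (n + 2) D₂) : Good (k + 1) (n + 2) (D₁ + D₂) := by
  classical
  obtain ⟨A, hA, M, F, hF, hFb, hMP, hMD⟩ := hM
  obtain ⟨B, hB, Q, F', hF', hFb', hQP, hQD⟩ := hQ
  refine ⟨A ⊕ A × Fin (D₁ + D₂) × B, inferInstance, corona M Q (D₁ + D₂),
    coronaForest F F' (D₁ + D₂), ?_, ?_, corona_pathFree hn hMP hQP, ?_⟩
  · intro x y h
    rcases x with a | ⟨a, i, b⟩ <;> rcases y with a' | ⟨a', i', b'⟩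
    · exact hF _ _ h
    · have h' : a = a' := h
      subst h'
      exact Or.inl (F.refl a)
    · have h' : a = a' := h
      subst h'
      exact Or.inr (F.refl a)
    · obtain ⟨rfl, rfl, h1⟩ := h
      rcases hF' _ _ h1 with h2 | h2
      · exact Or.inl ⟨rfl, rfl, h2⟩
      · exact Or.inr ⟨rfl, rfl, h2⟩
  · intro u
    rcases u with a | ⟨a, i, b⟩
    · have hsub : RootedForest.bagSet (coronaForest F F' (D₁ + D₂)) (corona M Q (D₁ + D₂))
          (Sum.inl a) ⊆ Sum.inl '' (F.bagSet M a) := by
        rintro x ⟨hne, hanc, d, hd1, hd2⟩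
        rcases x with a' | ⟨a', i', b'⟩
        · refine ⟨a', ⟨fun h => hne (by rw [h]), hanc, ?_⟩, rfl⟩
          rcases d with a'' | ⟨a'', i'', b''⟩
          · exact ⟨a'', hd1, hd2⟩
          · exfalso
            have h1 : a' = a'' := hd2
            have h2 : F.anc a a'' := hd1
            rw [← h1] at h2
            exact hne (by rw [F.antisymm _ _ hanc h2])
        · exact absurd hanc id
      refine (Set.ncard_le_ncard hsub (Set.toFinite _)).trans ?_
      rw [Set.ncard_image_of_injective _ Sum.inl_injective]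
      exact hFb a
    · have hsub : RootedForest.bagSet (coronaForest F F' (D₁ + D₂)) (corona M Q (D₁ + D₂))
          (Sum.inr (a, i, b)) ⊆ insert (Sum.inl a)
            ((fun b' => (Sum.inr (a, i, b') : A ⊕ A × Fin (D₁ + D₂) × B)) '' (F'.bagSet Q b)) := by
        rintro x ⟨hne, hanc, d, hd1, hd2⟩
        rcases x with a' | ⟨a', i', b'⟩
        · left
          rcases d with a'' | ⟨a'', i'', b''⟩
          · exact absurd hd1 id
          · have h1 : a' = a'' := hd2
            have h2 : a = a'' := hd1.1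
            rw [h1, ← h2]
        · right
          obtain ⟨rfl, rfl, h1⟩ := hanc
          refine ⟨b', ⟨fun h => hne (by rw [h]), h1, ?_⟩, rfl⟩
          rcases d with a'' | ⟨a'', i'', b''⟩
          · exact absurd hd1 id
          · exact ⟨b'', hd1.2.2, hd2.2.2⟩
      refine (Set.ncard_le_ncard hsub (Set.toFinite _)).trans ?_
      refine (Set.ncard_insert_le _ _).trans ?_
      have hi : Function.Injective (fun b' => (Sum.inr (a, i, b') : A ⊕ A × Fin (D₁ + D₂) × B)) := by
        intro b₁ b₂ h
        simpa using h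
      rw [Set.ncard_image_of_injective _ hi]
      have := hFb' b
      omega
  · refine le_treedepth fun E hE => ?_
    by_contra hcon
    push Not at hcon
    obtain ⟨w, hw⟩ := exists_deep hD₁ hMD (E.comap Sum.inl Sum.inl_injective)
      (fun u v huv => hE _ _ huv)
    -- a copy of `Q` without ancestors of `w`
    obtain ⟨i, hi⟩ : ∃ i : Fin (D₁ + D₂), ∀ b, ¬ E.anc (Sum.inr (w, i, b)) (Sum.inl w) := by
      by_contra hno
      push Not at hno
      choose f hf using hno
      have h1 := hcon (Sum.inl w)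
      have hinj : Function.Injective
          (fun i => (Sum.inr (w, i, f i) : A ⊕ A × Fin (D₁ + D₂) × B)) := by
        intro i j hij
        simp only [Sum.inr.injEq, Prod.mk.injEq] at hij
        exact hij.2.1
      have h2 : Set.range (fun i => (Sum.inr (w, i, f i) : A ⊕ A × Fin (D₁ + D₂) × B)) ⊆
          {a | E.anc a (Sum.inl w)} := by
        rintro _ ⟨i, rfl⟩
        exact hf i
      have h3 := Set.ncard_le_ncard h2 (Set.toFinite _)
      rw [← Set.image_univ, Set.ncard_image_of_injective _ hinj, Set.ncard_univ,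
        Nat.card_eq_fintype_card, Fintype.card_fin] at h3
      omega
    have hdesc : ∀ b, E.anc (Sum.inl w) (Sum.inr (w, i, b)) := by
      intro b
      rcases hE (Sum.inl w) (Sum.inr (w, i, b)) rfl with h | h
      · exact h
      · exact absurd h (hi b)
    have hinj : Function.Injective
        (fun b => (Sum.inr (w, i, b) : A ⊕ A × Fin (D₁ + D₂) × B)) := by
      intro b₁ b₂ h
      simpa using h
    obtain ⟨b, hb⟩ := exists_deep hD₂ hQD (E.comap _ hinj) (fun u v huv =>
      hE (Sum.inr (w, i, u)) (Sum.inr (w, i, v)) ⟨rfl, rfl, huv⟩)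
    have h1 := hcon (Sum.inr (w, i, b))
    have h2 : Sum.inl '' {a | (E.comap Sum.inl Sum.inl_injective).anc a w} ∪
        (fun b => (Sum.inr (w, i, b) : A ⊕ A × Fin (D₁ + D₂) × B)) ''
          {a | (E.comap _ hinj).anc a b} ⊆ {a | E.anc a (Sum.inr (w, i, b))} := by
      rintro x (⟨a, ha, rfl⟩ | ⟨a, ha, rfl⟩)
      · exact E.trans _ _ _ ha (hdesc b)
      · exact ha
    have h3 := Set.ncard_le_ncard h2 (Set.toFinite _)
    rw [Set.ncard_union_eq ?_ (Set.toFinite _) (Set.toFinite _),
      Set.ncard_image_of_injective _ Sum.inl_injective, Set.ncard_image_of_injective _ hinj] at h3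
    · omega
    · rw [Set.disjoint_left]
      rintro _ ⟨a, -, rfl⟩ ⟨b, -, hb⟩
      simp at hb

lemma good_binom : ∀ e k : ℕ, Good k (2 * (e + 1) + 1) ((k + (e + 1)).choose (e + 1))
  | 0, k => by
    simpa using good_clique k
  | e + 1, 0 => by
    have := good_single 0 (2 * (e + 1 + 1) + 1) (by omega)
    simpa using this
  | e + 1, k + 1 => by
    have h1 := good_binom e (k + 1)
    have h2 := good_binom (e + 1) k
    have h3 := good_corona (by omega) (Nat.choose_pos (by omega)) (Nat.choose_pos (by omega)) h1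
      (show Good k ((2 * (e + 1) + 1) + 2) _ from h2)
    have h4 : (k + 1 + (e + 1)).choose (e + 1) + (k + (e + 1 + 1)).choose (e + 1 + 1) =
        (k + 1 + (e + 1 + 1)).choose (e + 1 + 1) := by
      have e1 : k + 1 + (e + 1 + 1) = (k + 1 + (e + 1)) + 1 := by omega
      have e2 : k + (e + 1 + 1) = k + 1 + (e + 1) := by omega
      rw [e1, Nat.choose_succ_succ, e2]
    rw [h4] at h3
    exact h3

end Pool.Agent.Helper49.TD
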