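import Pool.Agent.Helper49.TD.Cost

/-!
# The upper bound for the cost of hitting a close family
-/

set_option autoImplicit false
set_option linter.unusedSectionVars false
set_option linter.unusedVariables false

namespace Pool.Agent.Helper49.TD

open SimpleGraph

variable {V : Type} [DecidableEq V] (G : SimpleGraph V)

/-- `𝓡` is a family of pairwise touching connected subsets of `U`, each of which contains a member of
`𝓑`. -/
structure IsBr (𝓑 : Finset V → Prop) (U : Finset V) (𝓡 : Finset V → Prop) : Prop where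
  cn : ∀ R, 𝓡 R → Cn G R
  sub : ∀ R, 𝓡 R → R ⊆ U
  mem : ∀ R, 𝓡 R → ∃ B, 𝓑 B ∧ B ⊆ R
  touch : ∀ R R', 𝓡 R → 𝓡 R' → Touch G R R'

/-- Every `𝓑`-bramble in `U` has a hitting set with at most `j` elements. -/
def Ord (𝓑 : Finset V → Prop) (j : ℕ) (U : Finset V) : Prop :=
  ∀ 𝓡, IsBr G 𝓑 U 𝓡 → ∃ Z : Finset V, Z.card ≤ j ∧ ∀ R, 𝓡 R → ¬ Disjoint R Z

/-- Two members of `𝓑` in a connected subset `W` of `U` are joined by a walk in `W` with at most `s`
inner vertices. -/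
def Close (𝓑 : Finset V → Prop) (s : ℕ) (U : Finset V) : Prop :=
  ∀ W ⊆ U, Cn G W → ∀ B₁ B₂, 𝓑 B₁ → 𝓑 B₂ → B₁ ⊆ W → B₂ ⊆ W →
    ∃ x ∈ B₁, ∃ y ∈ B₂, ∃ p : G.Walk x y, (∀ z ∈ p.support, z ∈ W) ∧ p.length ≤ s + 1

variable {G} {𝓑 : Finset V → Prop}

lemma Ord.mono_set {j : ℕ} {U U' : Finset V} (hU : U' ⊆ U) (h : Ord G 𝓑 j U) :
    Ord G 𝓑 j U' := fun 𝓡 h𝓡 =>
  h 𝓡 ⟨h𝓡.cn, fun R hR => (h𝓡.sub R hR).trans hU, h𝓡.mem, h𝓡.touch⟩

lemma Close.mono_set {s : ℕ} {U U' : Finset V} (hU : U' ⊆ U) (h : Close G 𝓑 s U) :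
    Close G 𝓑 s U' := fun W hW => h W (hW.trans hU)

lemma exists_nonadj (hconn : ∀ B, 𝓑 B → Cn G B) {j : ℕ} {U A : Finset V} {v : V}
    (hvU : v ∈ U) (hAU : A ⊆ U) (hv : v ∉ A) (h1 : ¬ Ord G 𝓑 j A) (h2 : ¬ Hit 𝓑 (j + 1) A)
    (h3 : Ord G 𝓑 (j + 1) U) : ∃ B, 𝓑 B ∧ B ⊆ A ∧ ∀ b ∈ B, ¬ G.Adj v b := by
  by_contra hcon
  push Not at hcon
  unfold Ord at h1
  push Not at h1
  obtain ⟨𝓡, h𝓡, hno⟩ := h1
  have hbr : IsBr G 𝓑 U (fun R => 𝓡 R ∨ ∃ B, 𝓑 B ∧ B ⊆ A ∧ R = insert v B) := by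
    refine ⟨?_, ?_, ?_, ?_⟩
    · rintro R (hR | ⟨B, hB, hBA, rfl⟩)
      · exact h𝓡.cn R hR
      · obtain ⟨b, hb, hvb⟩ := hcon B hB hBA
        exact (hconn B hB).insert hb hvb
    · rintro R (hR | ⟨B, hB, hBA, rfl⟩)
      · exact (h𝓡.sub R hR).trans hAU
      · exact Finset.insert_subset hvU (hBA.trans hAU)
    · rintro R (hR | ⟨B, hB, hBA, rfl⟩)
      · exact h𝓡.mem R hR
      · exact ⟨B, hB, Finset.subset_insert _ _⟩
    · have key : ∀ R B, 𝓡 R → Touch G R (insert v B) := by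
        intro R B hR
        obtain ⟨B', hB', hBR⟩ := h𝓡.mem R hR
        obtain ⟨b, hb, hvb⟩ := hcon B' hB' (hBR.trans (h𝓡.sub R hR))
        exact ⟨b, hBR hb, v, by simp, Or.inr hvb.symm⟩
      rintro R R' (hR | ⟨B, hB, hBA, rfl⟩) (hR' | ⟨B', hB', hBA', rfl⟩)
      · exact h𝓡.touch R R' hR hR'
      · exact key R B' hR
      · exact (key R' B hR').symm
      · exact ⟨v, by simp, v, by simp, Or.inl rfl⟩
  obtain ⟨Z, hZ, hZh⟩ := h3 _ hbr
  by_cases hvZ : v ∈ Z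
  · obtain ⟨R, hR, hd⟩ := hno (Z.erase v) (by
      rw [Finset.card_erase_of_mem hvZ]; omega)
    apply hZh R (Or.inl hR)
    rw [Finset.disjoint_left] at hd ⊢
    intro x hx hxZ
    refine hd hx ?_
    rw [Finset.mem_erase]
    refine ⟨?_, hxZ⟩
    rintro rfl
    exact hv (h𝓡.sub R hR hx)
  · refine h2 ⟨Z, hZ, fun B hB hBA hd => ?_⟩
    apply hZh (insert v B) (Or.inr ⟨B, hB, hBA, rfl⟩)
    rw [Finset.disjoint_insert_left]
    exact ⟨hvZ, hd⟩

lemma cn_support {x y : V} (p : G.Walk x y) : Cn G p.support.toFinset := by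
  refine ⟨⟨x, by simp⟩, ?_⟩
  have h1 : ∀ z ∈ p.support.toFinset, Reach G p.support.toFinset x z := by
    intro z hz
    rw [List.mem_toFinset] at hz
    exact support_reach p (fun w hw => by simpa using hw) z hz
  intro a ha b hb
  exact (h1 a ha).symm.trans (h1 b hb)

/-- The length of a walk in `W'` bounds the increase of a function which grows by at most one along
the edges in `W'`. -/
lemma length_ge {W' : Finset V} (f : V → ℕ)
    (hf : ∀ x ∈ W', ∀ y ∈ W', G.Adj x y → f y ≤ f x + 1) :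
    ∀ {x y : V} (p : G.Walk x y), (∀ z ∈ p.support, z ∈ W') → f y ≤ f x + p.length
  | _, _, Walk.nil, _ => by simp
  | x, y, Walk.cons (v := v) h p, hp => by
    have h1 := hf x (hp x (by simp)) v (hp v (by simp)) h
    have h2 := length_ge f hf p (fun z hz => hp z (by simp [hz]))
    rw [Walk.length_cons]
    omega

/-- The heavy sets. -/
def Heavy (G : SimpleGraph V) (𝓑 : Finset V → Prop) (j : ℕ) (U : Finset V) (A : Finset V) : Prop :=
  Cn G A ∧ A ⊆ U ∧ ¬ Ord G 𝓑 j A ∧ ¬ Hit 𝓑 (j + 1) A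

open Classical in
lemma close_heavy (hconn : ∀ B, 𝓑 B → Cn G B) {s j : ℕ} {U : Finset V}
    (hs : Close G 𝓑 (s + 2) U) (h3 : Ord G 𝓑 (j + 1) U) : Close G (Heavy G 𝓑 j U) s U := by
  intro W hWU hW A₁ A₂ hA₁ hA₂ hA₁W hA₂W
  -- distances from `A₁`
  let D : V → ℕ := fun x =>
    sInf {n | ∃ a ∈ A₁, ∃ p : G.Walk a x, (∀ z ∈ p.support, z ∈ W) ∧ p.length = n}
  have hD_le : ∀ a ∈ A₁, ∀ x, ∀ p : G.Walk a x, (∀ z ∈ p.support, z ∈ W) → D x ≤ p.length :=
    fun a ha x p hp => Nat.sInf_le ⟨a, ha, p, hp, rfl⟩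
  have hD_mem : ∀ x ∈ W, ∃ a ∈ A₁, ∃ p : G.Walk a x, (∀ z ∈ p.support, z ∈ W) ∧ p.length = D x := by
    intro x hx
    obtain ⟨a, ha⟩ := hA₁.1.1
    obtain ⟨p, hp⟩ := hW.2 a (hA₁W ha) x hx
    exact Nat.sInf_mem (s := {n | ∃ a ∈ A₁, ∃ p : G.Walk a x, (∀ z ∈ p.support, z ∈ W) ∧
      p.length = n}) ⟨_, a, ha, p, hp, rfl⟩
  have hD_lip : ∀ x ∈ W, ∀ y ∈ W, G.Adj x y → D y ≤ D x + 1 := by
    intro x hx y hy hxy
    obtain ⟨a, ha, p, hp, hl⟩ := hD_mem x hx
    have := hD_le a ha y (p.append (Walk.cons hxy Walk.nil)) (by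
      intro z hz
      rw [Walk.mem_support_append_iff] at hz
      rcases hz with hz | hz
      · exact hp z hz
      · simp only [Walk.support_cons, Walk.support_nil, List.mem_cons, List.not_mem_nil,
          or_false] at hz
        rcases hz with rfl | rfl
        · exact hx
        · exact hy)
    rw [Walk.length_append, hl] at this
    simpa using this
  have hD_zero : ∀ x ∈ A₁, D x = 0 := by
    intro x hx
    have := hD_le x hx x Walk.nil (by simpa using hA₁W hx)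
    simpa using this
  -- the shortest walk from `A₁` to `A₂`
  obtain ⟨y₀, hy₀, hmin⟩ := Finset.exists_min_image A₂ D hA₂.1.1
  obtain ⟨a₀, ha₀, p, hp, hpl⟩ := hD_mem y₀ (hA₂W hy₀)
  by_contra hcon
  have hlen : s + 2 ≤ D y₀ := by
    by_contra hlt
    exact hcon ⟨a₀, ha₀, y₀, hy₀, p, hp, by omega⟩
  set ℓ := D y₀ with hℓ
  have hDv : ∀ i ≤ ℓ, D (p.getVert i) = i := by
    intro i hi
    have h1 : D (p.getVert i) ≤ i := by
      have := hD_le a₀ ha₀ _ (p.take i) (fun z hz => hp z (by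
        have := p.support_take i
        rw [this] at hz
        exact List.mem_of_mem_take hz))
      rw [Walk.take_length] at this
      omega
    have h2 : D y₀ ≤ D (p.getVert i) + (p.drop i).length :=
      length_ge D hD_lip (p.drop i) (fun z hz => hp z (by
        rw [p.drop_support_eq_support_drop_min i] at hz
        exact List.mem_of_mem_drop hz))
    rw [Walk.drop_length] at h2
    omega
  have hpW : ∀ i, p.getVert i ∈ W := fun i => hp _ (p.getVert_mem_support i)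
  have hv1 : p.getVert 1 ∉ A₁ := by
    intro h
    have := hD_zero _ h
    rw [hDv 1 (by omega)] at this
    omega
  have hv2 : p.getVert (ℓ - 1) ∉ A₂ := by
    intro h
    have := hmin _ h
    rw [hDv (ℓ - 1) (by omega)] at this
    omega
  obtain ⟨B₁, hB₁, hB₁A, hB₁n⟩ := exists_nonadj hconn (hWU (hpW 1)) hA₁.2.1 hv1 hA₁.2.2.1
    hA₁.2.2.2 h3
  obtain ⟨B₂, hB₂, hB₂A, hB₂n⟩ := exists_nonadj hconn (hWU (hpW (ℓ - 1))) hA₂.2.1 hv2 hA₂.2.2.1
    hA₂.2.2.2 h3
  have hW' : Cn G ((A₁ ∪ p.support.toFinset) ∪ A₂) := by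
    have h1 : Cn G (A₁ ∪ p.support.toFinset) :=
      hA₁.1.union (cn_support p) ⟨a₀, ha₀, a₀, by simp, Or.inl rfl⟩
    exact h1.union hA₂.1 ⟨y₀, by simp, y₀, hy₀, Or.inl rfl⟩
  have hW'W : (A₁ ∪ p.support.toFinset) ∪ A₂ ⊆ W := by
    intro x hx
    simp only [Finset.mem_union, List.mem_toFinset] at hx
    rcases hx with (hx | hx) | hx
    · exact hA₁W hx
    · exact hp x hx
    · exact hA₂W hx
  obtain ⟨b₁, hb₁, b₂, hb₂, q, hq, hql⟩ := hs _ (hW'W.trans hWU) hW' B₁ B₂ hB₁ hB₂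
    (fun x hx => by simp [hB₁A hx]) (fun x hx => by simp [hB₂A hx])
  have hsupp : ∀ z ∈ (A₁ ∪ p.support.toFinset) ∪ A₂, z ∉ A₁ → z ∉ A₂ →
      ∃ i, 1 ≤ i ∧ i < ℓ ∧ z = p.getVert i ∧ D z = i := by
    intro z hz h1 h2
    simp only [Finset.mem_union, List.mem_toFinset] at hz
    have hz' : z ∈ p.support := by tauto
    obtain ⟨i, hi, hil⟩ := Walk.mem_support_iff_exists_getVert.1 hz'
    have h0 : i ≠ 0 := by
      rintro rfl
      rw [Walk.getVert_zero] at hi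
      exact h1 (hi ▸ ha₀)
    have h3 : i ≠ ℓ := by
      rintro rfl
      rw [← hpl, Walk.getVert_length] at hi
      exact h2 (hi ▸ hy₀)
    refine ⟨i, by omega, by omega, hi.symm, ?_⟩
    rw [← hi]
    exact hDv i (by omega)
  have hA2D : ∀ y ∈ A₂, ℓ ≤ D y := fun y hy => hmin y hy
  have hdisj : ∀ y ∈ A₂, y ∉ A₁ := by
    intro y hy h
    have := hA2D y hy
    rw [hD_zero y h] at this
    omega
  let f : V → ℕ := fun x => if x ∈ A₁ then (if G.Adj (p.getVert 1) x then 1 else 0)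
    else if x ∈ A₂ then (if G.Adj (p.getVert (ℓ - 1)) x then ℓ + 1 else ℓ + 2) else D x + 1
  have hf1 : ∀ x ∈ A₁, f x ≤ 1 := by
    intro x hx
    simp only [f, hx, if_true]
    split_ifs <;> omega
  have hf2 : ∀ x ∈ A₂, ℓ + 1 ≤ f x ∧ f x ≤ ℓ + 2 := by
    intro x hx
    simp only [f, hx, hdisj x hx, if_true, if_false]
    split_ifs <;> omega
  have hf3 : ∀ x, x ∉ A₁ → x ∉ A₂ → f x = D x + 1 := by
    intro x hx hx'
    simp only [f, hx, hx', if_false]
  have hlip : ∀ x ∈ (A₁ ∪ p.support.toFinset) ∪ A₂, ∀ y ∈ (A₁ ∪ p.support.toFinset) ∪ A₂,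
      G.Adj x y → f y ≤ f x + 1 := by
    intro x hx y hy hxy
    have hL := hD_lip x (hW'W hx) y (hW'W hy) hxy
    by_cases hy1 : y ∈ A₁
    · have := hf1 y hy1; omega
    by_cases hx1 : x ∈ A₁
    · by_cases hy2 : y ∈ A₂
      · have h1 := hA2D y hy2
        rw [hD_zero x hx1] at hL
        omega
      · obtain ⟨i, hi1, hi2, hi3, hi4⟩ := hsupp y hy hy1 hy2
        rw [hD_zero x hx1] at hL
        have hi : i = 1 := by omega
        subst hi
        rw [hf3 y hy1 hy2, hi4]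
        have : f x = 1 := by
          simp only [f, hx1, if_true]
          rw [if_pos]
          rw [← hi3]
          exact hxy.symm
        omega
    by_cases hx2 : x ∈ A₂
    · have h1 := hf2 x hx2
      by_cases hy2 : y ∈ A₂
      · have := hf2 y hy2; omega
      · obtain ⟨i, hi1, hi2, hi3, hi4⟩ := hsupp y hy hy1 hy2
        rw [hf3 y hy1 hy2, hi4]
        omega
    · obtain ⟨i, hi1, hi2, hi3, hi4⟩ := hsupp x hx hx1 hx2
      rw [hf3 x hx1 hx2, hi4]
      by_cases hy2 : y ∈ A₂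
      · have h1 := hA2D y hy2
        have hi : i = ℓ - 1 := by omega
        have : f y = ℓ + 1 := by
          simp only [f, hy1, hy2, if_true, if_false]
          rw [if_pos]
          rw [← hi, ← hi3]
          exact hxy
        omega
      · rw [hf3 y hy1 hy2]
        omega
  have hfin := length_ge f hlip q hq
  have h1 : f b₁ = 0 := by
    simp only [f, hB₁A hb₁, if_true]
    rw [if_neg (hB₁n b₁ hb₁)]
  have h2 : f b₂ = ℓ + 2 := by
    have h2A := hB₂A hb₂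
    simp only [f, hdisj b₂ h2A, h2A, if_true, if_false]
    rw [if_neg (hB₂n b₂ hb₂)]
  omega

end Pool.Agent.Helper49.TD
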